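import Pool.Agent.Zk58.Star

set_option autoImplicit false

/-!
# Proper systems of continuum many congruences in the hyperbolic plane are solvable
-/

namespace Pool.Agent.Zk58.Congruences

open Pool.Agent.Zk58.Star

/-- Of a set and its complement, the one containing `i0`. -/
noncomputable def nrm {I : Type} (i0 : I) (S : Set I) : Set I := by
  classical
  exact if i0 ∈ S then S else Sᶜ

theorem mem_nrm {I : Type} (i0 : I) (S : Set I) : i0 ∈ nrm i0 S := by
  unfold nrm
  split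
  · assumption
  · assumption

theorem nrm_cases {I : Type} (i0 : I) (S : Set I) : nrm i0 S = S ∨ nrm i0 S = Sᶜ := by
  unfold nrm
  split
  · exact Or.inl rfl
  · exact Or.inr rfl

theorem nrm_ne_univ {I : Type} (i0 : I) (S : Set I) (h1 : S.Nonempty) (h2 : S ≠ Set.univ) :
    nrm i0 S ≠ Set.univ := by
  rcases nrm_cases i0 S with h | h
  · rwa [h]
  · rw [h]
    intro h3
    rw [Set.compl_univ_iff] at h3
    exact h1.ne_empty h3

/-- Solvability in terms of labellings. -/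
theorem labelling (I M : Type) (L R : M → Set I) (i0 : I)
    (hM : Cardinal.mk M ≤ Cardinal.continuum)
    (hprop : ∀ i, (L i).Nonempty ∧ L i ≠ Set.univ ∧ (R i).Nonempty ∧ R i ≠ Set.univ) :
    ∃ c : UpperHalfPlane → I, ∀ i, ∃ g : Matrix.SpecialLinearGroup (Fin 2) ℝ,
      ∀ z, (c z ∈ L i ↔ c (g • z) ∈ R i) := by
  classical
  -- the equivalence relation generated by the congruences
  let r : Set I → Set I → Prop := fun S T => ∃ i, S = nrm i0 (L i) ∧ T = nrm i0 (R i)
  let st : Setoid (Set I) := Relation.EqvGen.setoid r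
  let b : Set I → Set I := fun S => Quotient.out (Quotient.mk st S)
  have hb : ∀ S, Relation.EqvGen r (b S) S := by
    intro S
    have h1 : Quotient.mk st (b S) = Quotient.mk st S := Quotient.out_eq _
    exact Quotient.exact h1
  have hbb : ∀ S T, Relation.EqvGen r S T → b S = b T := by
    intro S T h
    have h1 : Quotient.mk st S = Quotient.mk st T := Quotient.sound h
    show Quotient.out _ = Quotient.out _
    rw [h1]
  have hinv : ∀ S T, Relation.EqvGen r S T → ((i0 ∈ S ∧ S ≠ Set.univ) ↔ (i0 ∈ T ∧ T ≠ Set.univ)) := by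
    intro S T h
    induction h with
    | rel x y h =>
      obtain ⟨i, rfl, rfl⟩ := h
      obtain ⟨h1, h2, h3, h4⟩ := hprop i
      simp [mem_nrm, nrm_ne_univ i0 _ h1 h2, nrm_ne_univ i0 _ h3 h4]
    | refl x => rfl
    | symm x y _ ih => exact ih.symm
    | trans x y z _ _ ih1 ih2 => exact ih1.trans ih2
  -- the vertices
  let V : Set (Set I) := {S | ∃ i, S = nrm i0 (L i) ∨ S = nrm i0 (R i)}
  have hV : ∀ S ∈ V, i0 ∈ S ∧ S ≠ Set.univ := by
    rintro S ⟨i, rfl | rfl⟩
    · exact ⟨mem_nrm _ _, nrm_ne_univ i0 _ (hprop i).1 (hprop i).2.1⟩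
    · exact ⟨mem_nrm _ _, nrm_ne_univ i0 _ (hprop i).2.2.1 (hprop i).2.2.2⟩
  have hbV : ∀ S ∈ V, i0 ∈ b S ∧ b S ≠ Set.univ := fun S hS =>
    (hinv _ _ (hb S)).2 (hV S hS)
  let H : Type := {S : Set I // S ∈ V ∧ b S ≠ S}
  let K : Type := {X : Set I // ∃ S ∈ V, X = b S}
  have hVc : Cardinal.mk V ≤ Cardinal.continuum := by
    have h1 : V ⊆ Set.range (fun i => nrm i0 (L i)) ∪ Set.range (fun i => nrm i0 (R i)) := by
      rintro S ⟨i, h | h⟩
      · exact Or.inl ⟨i, h.symm⟩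
      · exact Or.inr ⟨i, h.symm⟩
    calc Cardinal.mk V ≤ Cardinal.mk (Set.range (fun i => nrm i0 (L i)) ∪
          Set.range (fun i => nrm i0 (R i)) : Set (Set I)) := Cardinal.mk_le_mk_of_subset h1
      _ ≤ Cardinal.mk (Set.range (fun i => nrm i0 (L i))) +
          Cardinal.mk (Set.range (fun i => nrm i0 (R i))) := Cardinal.mk_union_le _ _
      _ ≤ Cardinal.continuum + Cardinal.continuum :=
          add_le_add (Cardinal.mk_range_le.trans hM) (Cardinal.mk_range_le.trans hM)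
      _ = Cardinal.continuum := Cardinal.continuum_add_self
  have hHc : Cardinal.mk H ≤ Cardinal.continuum := by
    refine le_trans ?_ hVc
    exact Cardinal.mk_le_of_injective (f := fun h : H => (⟨h.1, h.2.1⟩ : V)) (by
      intro h h' hh
      have h3 : (⟨h.1, h.2.1⟩ : V) = ⟨h'.1, h'.2.1⟩ := hh
      exact Subtype.ext (Subtype.mk.inj h3))
  have hKc : Cardinal.mk K ≤ Cardinal.continuum := by
    refine le_trans ?_ hVc
    exact Cardinal.mk_le_of_surjective (f := fun S : V => (⟨b S.1, S.1, S.2, rfl⟩ : K)) (by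
      rintro ⟨X, S, hS, rfl⟩
      exact ⟨⟨S, hS⟩, rfl⟩)
  have hHK : Cardinal.mk (H ⊕ K) ≤ Cardinal.continuum := by
    rw [Cardinal.mk_sum, Cardinal.lift_id, Cardinal.lift_id]
    exact (add_le_add hHc hKc).trans Cardinal.continuum_add_self.le
  have hbidem : ∀ S, b (b S) = b S := fun S => hbb _ _ (hb S)
  obtain ⟨c, hc1, hc2⟩ := star_solvable (I := I) (H := H) (K := K) (fun h => b h.1)
    (fun h => h.1) (fun k => k.1) hHK i0
    (fun h => (hbV h.1 h.2.1).1) (fun h => (hV h.1 h.2.1).1)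
    (by rintro ⟨X, S, hS, rfl⟩; exact (hbV S hS).1)
    (fun h => (hbV h.1 h.2.1).2) (fun h => (hV h.1 h.2.1).2)
    (by rintro ⟨X, S, hS, rfl⟩; exact (hbV S hS).2)
    Subtype.val_injective Subtype.val_injective
    (by
      intro h h' hh
      apply h.2.2
      have : h.1 = b h'.1 := hh
      rw [this, hbidem])
    (by
      rintro h ⟨X, S, hS, rfl⟩ hh
      apply h.2.2
      have : h.1 = b S := hh
      rw [this, hbidem])
  have key : ∀ S ∈ V, ∃ g : Matrix.SpecialLinearGroup (Fin 2) ℝ,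
      ∀ z, (c z ∈ b S ↔ c (g • z) ∈ S) := by
    intro S hS
    by_cases h : b S = S
    · exact ⟨1, fun z => by rw [one_smul, h]⟩
    · exact hc1 ⟨S, hS, h⟩
  refine ⟨c, ?_⟩
  intro i
  have hLV : nrm i0 (L i) ∈ V := ⟨i, Or.inl rfl⟩
  have hRV : nrm i0 (R i) ∈ V := ⟨i, Or.inr rfl⟩
  obtain ⟨g1, hg1⟩ := key _ hLV
  obtain ⟨g2, hg2⟩ := key _ hRV
  have hbe : b (nrm i0 (L i)) = b (nrm i0 (R i)) := hbb _ _ (Relation.EqvGen.rel _ _ ⟨i, rfl, rfl⟩)
  obtain ⟨k, hk⟩ := hc2 ⟨b (nrm i0 (R i)), _, hRV, rfl⟩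
  simp only at hk
  rw [hbe] at hg1
  have hg1' : ∀ z, (c z ∈ nrm i0 (L i) ↔ c (g1⁻¹ • z) ∈ b (nrm i0 (R i))) := by
    intro z
    rw [hg1 (g1⁻¹ • z), smul_inv_smul]
  -- the two witnesses for the normalised sets
  have w1 : ∀ z, (c z ∈ nrm i0 (L i) ↔ c ((g2 * g1⁻¹) • z) ∈ nrm i0 (R i)) := by
    intro z
    rw [hg1' z, hg2, mul_smul]
  have w2 : ∀ z, (c z ∈ nrm i0 (L i) ↔ c ((g2 * k * g1⁻¹) • z) ∉ nrm i0 (R i)) := by
    intro z
    rw [hg1' z, hk, hg2, mul_smul, mul_smul]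
  rcases nrm_cases i0 (L i) with hL | hL <;> rcases nrm_cases i0 (R i) with hR | hR
  · refine ⟨g2 * g1⁻¹, fun z => ?_⟩
    have := w1 z
    rwa [hL, hR] at this
  · refine ⟨g2 * k * g1⁻¹, fun z => ?_⟩
    have := w2 z
    rwa [hL, hR, Set.mem_compl_iff, not_not] at this
  · refine ⟨g2 * k * g1⁻¹, fun z => ?_⟩
    have := w2 z
    rw [hL, hR, Set.mem_compl_iff] at this
    tauto
  · refine ⟨g2 * g1⁻¹, fun z => ?_⟩
    have := w1 z
    rw [hL, hR, Set.mem_compl_iff, Set.mem_compl_iff] at this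
    tauto

/-- Every proper system of at most continuum many congruences is solvable in the hyperbolic
plane, with orientation-preserving isometries. -/
theorem solvable (I M : Type) (L R : M → Set I) (hI : Nonempty I)
    (hM : Cardinal.mk M ≤ Cardinal.continuum)
    (hprop : ∀ i, (L i).Nonempty ∧ L i ≠ Set.univ ∧ (R i).Nonempty ∧ R i ≠ Set.univ) :
    ∃ A : I → Set UpperHalfPlane,
      Pairwise (fun j k => Disjoint (A j) (A k)) ∧
      (⋃ j, A j) = Set.univ ∧
      ∀ i, ∃ g : Matrix.SpecialLinearGroup (Fin 2) ℝ,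
        (fun z => g • z) '' (⋃ j ∈ L i, A j) = ⋃ j ∈ R i, A j := by
  obtain ⟨i0⟩ := hI
  obtain ⟨c, hc⟩ := labelling I M L R i0 hM hprop
  refine ⟨fun j => c ⁻¹' {j}, ?_, ?_, ?_⟩
  · intro j k hjk
    rw [Set.disjoint_left]
    intro z hz hz'
    exact hjk (hz.symm.trans hz')
  · ext z
    simp
  · intro i
    obtain ⟨g, hg⟩ := hc i
    refine ⟨g, ?_⟩
    ext z
    simp only [Set.mem_image, Set.mem_iUnion, Set.mem_preimage, Set.mem_singleton_iff,
      exists_prop, exists_eq_right']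
    constructor
    · rintro ⟨y, hy, rfl⟩
      exact (hg y).1 hy
    · intro hz
      refine ⟨g⁻¹ • z, ?_, smul_inv_smul _ _⟩
      rw [hg, smul_inv_smul]
      exact hz

end Pool.Agent.Zk58.Congruences
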