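import Pool.Agent.Zk55.RF.Base

set_option autoImplicit false

/-!
Visibility of unfolded vertices: the recursive fan lemma.

Module for helper55 (MP_7bc51d_an). If an unfolded vertex `V` is visible from a point `y0` of the
segment `[B, C]` in the polygon then some unfolded vertex in the triangle `V`, `B`, `C` is visible
from all points of the segment.
-/

namespace Pool.Agent.Zk58.RF

open Complex Set MeasureTheory Filter Topology Pool.Agent.W780.PG Pool.Agent.W780.BB
  Pool.Agent.TH578.BE Pool.Agent.K3h17.BK Pool.Agent.Zk55.CF Pool.Agent.Zk55.RF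

open scoped Real ComplexConjugate

variable {n : ℕ} {p : Fin (n + 3) → ℂ}

/-- `Ch` without its final condition. -/
def ChW (p : Fin (n + 3) → ℂ) : List (Fin (n + 3)) → ℂ → ℂ → Prop
  | [], _, _ => True
  | i :: w, B, A => 0 < sf p i B ∧ sf p i A < 0 ∧ (∀ j, j ≠ i → 0 < sf p j (cr p i B A)) ∧
      ChW p w (cr p i B A) (rf p i A)

/-- A point of the line of side `i` in the triangle `V`, `B`, `C` lies between the crossing points. -/
theorem mem_cr {i : Fin (n + 3)} {V B C Z : ℂ} (hB : 0 < sf p i B) (hC : 0 < sf p i C)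
    (hV : sf p i V < 0) (hZ : Z ∈ convexHull ℝ ({V, B, C} : Set ℂ)) (h0 : sf p i Z = 0) :
    Z ∈ segment ℝ (cr p i B V) (cr p i C V) := by
  have hne : ({B, C} : Set ℂ).Nonempty := ⟨B, by simp⟩
  rw [show ({V, B, C} : Set ℂ) = insert V {B, C} from rfl, convexHull_insert hne,
    convexHull_pair] at hZ
  rw [mem_convexJoin] at hZ
  obtain ⟨V', hV', q, hq, hZ⟩ := hZ
  rw [mem_singleton_iff] at hV'
  rw [hV'] at hZ
  rw [segment_eq_image'] at hq hZ
  obtain ⟨s, ⟨hs0, hs1⟩, rfl⟩ := hq
  obtain ⟨t, ⟨ht0, ht1⟩, rfl⟩ := hZ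
  simp only at h0 ⊢
  rw [Pool.Agent.W12.BB.Fan.sf_line, Pool.Agent.W12.BB.Fan.sf_line] at h0
  set b := sf p i B with hb
  set c := sf p i C with hc
  set v := -sf p i V with hv
  have hv0 : 0 < v := by linarith
  have hVv : sf p i V = -v := by linarith
  rw [hVv] at h0
  have hbv : 0 < b + v := by linarith
  have hcv : 0 < c + v := by linarith
  rw [segment_eq_image']
  set ν := t * s * (c + v) / v with hν
  set μ := t * (1 - s) * (b + v) / v with hμ
  have hμ0 : 0 ≤ μ := by
    rw [hμ]
    have : 0 ≤ 1 - s := by linarith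
    positivity
  have hν0 : 0 ≤ ν := by rw [hν]; positivity
  have hsum : μ + ν = 1 := by
    rw [hμ, hν]
    field_simp
    linarith
  refine ⟨ν, ⟨hν0, by linarith⟩, ?_⟩
  have e1 : cr p i B V = B + (b / (b + v)) • (V - B) := by
    unfold cr
    rw [hVv, sub_neg_eq_add]
  have e2 : cr p i C V = C + (c / (c + v)) • (V - C) := by
    unfold cr
    rw [hVv, sub_neg_eq_add]
  simp only
  rw [e1, e2]
  have e3 : μ * (v / (b + v)) = t * (1 - s) := by
    rw [hμ]; field_simp
  have e4 : ν * (v / (c + v)) = t * s := by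
    rw [hν]; field_simp
  have e5 : b / (b + v) = 1 - v / (b + v) := by field_simp; ring
  have e6 : c / (c + v) = 1 - v / (c + v) := by field_simp; ring
  rw [e5, e6]
  have hμ' : μ = 1 - ν := by linarith
  rw [hμ'] at e3
  simp only [real_smul]
  push_cast
  have f3 : (1 - (ν : ℂ)) * ((v : ℂ) / (b + v)) = t * (1 - s) := by exact_mod_cast e3
  have f4 : (ν : ℂ) * ((v : ℂ) / (c + v)) = t * s := by exact_mod_cast e4
  linear_combination (B - V) * f3 + (C - V) * f4

/-- The recursive lemma. -/
theorem rec_vis (hp : IsConvexPolygon p) (k : Fin (n + 3)) : ∀ (w : List (Fin (n + 3))) (B C : ℂ),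
    ((B ∈ reg p ∧ C ∈ reg p) ∨ ∃ k, B ∈ side p k ∧ C ∈ side p k) → ChW p w B (uf p w (p k)) →
    ∃ (u : List (Fin (n + 3))) (l : Fin (n + 3)),
      uf p u (p l) ∈ convexHull ℝ ({uf p w (p k), B, C} : Set ℂ) ∧
      ∀ y ∈ segment ℝ B C, ChW p u y (uf p u (p l)) := by
  obtain ⟨hr1, _, hr3, hr4, _, hr6, _⟩ := Pool.Agent.W347.BB.ref n p hp
  intro w
  induction w with
  | nil =>
    intro B C _ _
    exact ⟨[], k, subset_convexHull ℝ _ (by simp [uf]), fun _ _ => trivial⟩
  | cons i w ih =>
    intro B C hbase hch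
    obtain ⟨hB, hV, hcr, hrest⟩ := hch
    set V := uf p (i :: w) (p k) with hVdef
    by_cases hvert : ∃ l, p l ∈ convexHull ℝ ({V, B, C} : Set ℂ)
    · obtain ⟨l, hl⟩ := hvert
      exact ⟨[], l, hl, fun _ _ => trivial⟩
    push Not at hvert
    have hC : 0 < sf p i C := by
      rcases hbase with h | ⟨k', hBk, hCk⟩
      · exact h.2 i
      · have hik : i ≠ k' := by
          rintro rfl
          have : sf p i B = 0 := (Pool.Agent.W174.PG.side_facts hp i hBk).2.1
          linarith
        exact (Pool.Agent.W174.PG.side_facts hp k' hCk).2.2 i hik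
    have hconv : Convex ℝ (convexHull ℝ ({V, B, C} : Set ℂ)) := convex_convexHull ℝ _
    have mV : V ∈ convexHull ℝ ({V, B, C} : Set ℂ) := subset_convexHull ℝ _ (by simp)
    have mB : B ∈ convexHull ℝ ({V, B, C} : Set ℂ) := subset_convexHull ℝ _ (by simp)
    have mC : C ∈ convexHull ℝ ({V, B, C} : Set ℂ) := subset_convexHull ℝ _ (by simp)
    obtain ⟨sB, zB⟩ := Pool.Agent.W12.BB.Fan.cr_facts hB hV
    obtain ⟨sC, zC⟩ := Pool.Agent.W12.BB.Fan.cr_facts hC hV
    have mY : cr p i B V ∈ convexHull ℝ ({V, B, C} : Set ℂ) := hconv.segment_subset mB mV sB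
    have mY1 : cr p i C V ∈ convexHull ℝ ({V, B, C} : Set ℂ) := hconv.segment_subset mC mV sC
    -- the crossing points are on the open side
    have hY : cr p i B V ∈ side p i := side_of_cr hp zB hcr
    have hY1 : cr p i C V ∈ side p i :=
      Pool.Agent.W12.BB.Fan.side_of_seg hp hconv hY zC mY mY1 hvert
    have hside : ∀ z ∈ segment ℝ (cr p i B V) (cr p i C V), z ∈ side p i := by
      intro z hz
      have hz0 : sf p i z = 0 := by
        rw [segment_eq_image'] at hz
        obtain ⟨t, -, rfl⟩ := hz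
        simp only
        rw [Pool.Agent.W12.BB.Fan.sf_line, zB, zC]
        ring
      exact Pool.Agent.W12.BB.Fan.side_of_seg hp hconv hY hz0 mY
        (hconv.segment_subset mY mY1 hz) hvert
    have hrV : rf p i V = uf p w (p k) := by
      rw [hVdef, uf, hr1]
    rw [hrV] at hrest
    obtain ⟨u, l, hU, hvis⟩ := ih _ _ (Or.inr ⟨i, hY, hY1⟩) hrest
    set U' := uf p u (p l) with hU'
    have hU'side : U' ∉ side p i := by
      intro hmem
      have hf := Pool.Agent.W174.PG.side_facts hp i hmem
      cases u with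
      | nil =>
        have e : U' = p l := rfl
        have h1 : ∀ j, j ≠ i → 0 < sf p j (p l) := fun j hj => by
          have := hf.2.2 j hj
          rw [e] at this
          exact this
        by_cases hl : l = i
        · have h2 := h1 (i - 1) (Pool.Agent.W174.PG.im i)
          rw [hl] at h2
          unfold sf at h2
          rw [sub_add_cancel, Pool.Agent.W174.PG.lft_right] at h2
          exact lt_irrefl _ h2
        · have h2 := h1 l hl
          unfold sf at h2
          rw [Pool.Agent.W174.PG.lft_left] at h2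
          exact lt_irrefl _ h2
      | cons i' u' =>
        have h1 := hvis (cr p i B V) (left_mem_segment ℝ _ _)
        have h2 : sf p i' U' < 0 := h1.2.1
        have h3 : 0 ≤ sf p i' U' := hf.1 i'
        linarith
    -- the unfolded vertex
    have hpre : Convex ℝ {z | rf p i z ∈ convexHull ℝ ({V, B, C} : Set ℂ)} := by
      intro z hz z' hz' s t hs ht hst
      rw [Set.mem_ofPred_eq] at hz hz' ⊢
      have e : s • z + t • z' = z + t • (z' - z) := by
        have : s = 1 - t := by linarith
        rw [this, sub_smul, one_smul, smul_sub]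
        ring
      rw [e, hr6]
      exact Pool.Agent.W12.BB.Fan.mem_line hconv hz hz' ht (by linarith)
    have hsub : convexHull ℝ ({uf p w (p k), cr p i B V, cr p i C V} : Set ℂ) ⊆
        {z | rf p i z ∈ convexHull ℝ ({V, B, C} : Set ℂ)} := by
      refine convexHull_min ?_ hpre
      intro z hz
      rcases hz with rfl | rfl | rfl
      · rw [Set.mem_ofPred_eq, ← hrV, hr1]
        exact mV
      · rw [Set.mem_ofPred_eq, hr4 _ _ zB]
        exact mY
      · rw [Set.mem_ofPred_eq, hr4 _ _ zC]
        exact mY1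
    have hUmem : rf p i U' ∈ convexHull ℝ ({V, B, C} : Set ℂ) := hsub hU
    -- the vertex is on the other side
    have hU0 : 0 ≤ sf p i U' := by
      have hc : Convex ℝ {z : ℂ | 0 ≤ sf p i z} := by
        intro z hz z' hz' s t hs ht hst
        rw [Set.mem_ofPred_eq] at hz hz' ⊢
        have e : s • z + t • z' = z + t • (z' - z) := by
          have : s = 1 - t := by linarith
          rw [this, sub_smul, one_smul, smul_sub]
          ring
        rw [e, Pool.Agent.W12.BB.Fan.sf_line]
        have : 0 ≤ 1 - t := by linarith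
        positivity
      have hs : convexHull ℝ ({uf p w (p k), cr p i B V, cr p i C V} : Set ℂ) ⊆
          {z : ℂ | 0 ≤ sf p i z} := by
        refine convexHull_min ?_ hc
        intro z hz
        rcases hz with rfl | rfl | rfl
        · rw [Set.mem_ofPred_eq, ← hrV, hr3]
          linarith
        · exact zB.ge
        · exact zC.ge
      exact hs hU
    have hU1 : sf p i U' ≠ 0 := by
      intro h0
      have h1 : rf p i U' = U' := hr4 _ _ h0
      have h2 : U' ∈ convexHull ℝ ({V, B, C} : Set ℂ) := by rw [← h1]; exact hUmem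
      exact hU'side (hside _ (mem_cr hB hC hV h2 h0))
    have hUneg : sf p i (rf p i U') < 0 := by
      rw [hr3]
      have : 0 < sf p i U' := lt_of_le_of_ne hU0 (Ne.symm hU1)
      linarith
    refine ⟨i :: u, l, hUmem, fun y hy => ?_⟩
    have hy0 : 0 < sf p i y := by
      rw [segment_eq_image'] at hy
      obtain ⟨t, ⟨ht0, ht1⟩, rfl⟩ := hy
      simp only
      rw [Pool.Agent.W12.BB.Fan.sf_line]
      rcases ht0.eq_or_lt with h | h
      · rw [← h]; simpa using hB
      · have h1 := mul_pos h hC
        have h2 : 0 ≤ (1 - t) * sf p i B := mul_nonneg (by linarith) hB.le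
        linarith
    have hym : y ∈ convexHull ℝ ({V, B, C} : Set ℂ) := hconv.segment_subset mB mC hy
    have hUe : uf p (i :: u) (p l) = rf p i U' := rfl
    rw [hUe]
    obtain ⟨sy, zy⟩ := Pool.Agent.W12.BB.Fan.cr_facts hy0 hUneg
    have hcm : cr p i y (rf p i U') ∈ segment ℝ (cr p i B V) (cr p i C V) :=
      mem_cr hB hC hV (hconv.segment_subset hym hUmem sy) zy
    refine ⟨hy0, hUneg, fun j hj => (Pool.Agent.W174.PG.side_facts hp i (hside _ hcm)).2.2 j hj, ?_⟩
    rw [hr1]
    exact hvis _ hcm

/-- An unfolded vertex on the line comes after the starting point. -/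
theorem after (hp : IsConvexPolygon p) {w : List (Fin (n + 3))} {x : ℝ × ℝ} {y : ℂ}
    {k : Fin (n + 3)} (hn : w ≠ []) (hW : RW p w x) (hy : ph x y = 0) (hyc : ∀ j, 0 ≤ sf p j y)
    (hV : ph x (uf p w (p k)) = 0) : tt x y < tt x (uf p w (p k)) := by
  obtain ⟨hr1, -, -, hr4, -⟩ := Pool.Agent.W347.BB.ref n p hp
  have h1 : ph (fw p w x) (p k) = 0 := by rw [ph_fw hr1, hV, mul_zero]
  obtain ⟨v, i, rfl⟩ : ∃ v i, w = v ++ [i] := ⟨w.dropLast, w.getLast hn,
    (List.dropLast_append_getLast hn).symm⟩
  have hk := hW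
  rw [RW_append] at hk
  obtain ⟨-, k1, k2, -⟩ := hk
  have hne : ∀ l, ph (fw p v x) (p l) ≠ 0 → rf p i (p l) = p l → l ≠ k := by
    rintro l hl hrf rfl
    rw [fw_append] at h1
    have h3 : fw p [i] (fw p v x) = fl p i (fw p v x) := rfl
    rw [h3] at h1
    have h4 := ph_fl (p := p) i (fw p v x) (p l)
    rw [hrf, h1] at h4
    exact hl (by linarith)
  have e1 : k ≠ i := (hne i k1.ne (hr4 i _ (Pool.Agent.W174.PG.lft_left _ _))).symm
  have e2 : k ≠ i + 1 := (hne (i + 1) k2.ne' (hr4 i _ (Pool.Agent.W174.PG.lft_right _ _))).symm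
  exact ord hp i v x y (RW_WW _ _ hW) hy hyc k e1 e2 hV

/-- From lines to chains. -/
theorem chW_of_RW (hp : IsConvexPolygon p) (k : Fin (n + 3)) : ∀ (w : List (Fin (n + 3)))
    (x : ℝ × ℝ) (y : ℂ), RW p w x → ph x y = 0 → (∀ j, 0 ≤ sf p j y) →
    (∀ i w', w = i :: w' → 0 < sf p i y) → ph x (uf p w (p k)) = 0 →
    ChW p w y (uf p w (p k)) := by
  obtain ⟨hr1, _, hr3, hr4, _, hr6, _⟩ := Pool.Agent.W347.BB.ref n p hp
  intro w
  induction w with
  | nil => intro x y _ _ _ _ _; trivial
  | cons i w ih =>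
    intro x y hW hy hyc hfirst hV
    obtain ⟨h1, h2, h3⟩ := hW
    have hyi : 0 < sf p i y := hfirst i w rfl
    set V := uf p (i :: w) (p k) with hVdef
    have hrV : rf p i V = uf p w (p k) := by rw [hVdef, uf, hr1]
    have hD : 0 < ph x (p (i + 1)) - ph x (p i) := by linarith
    obtain ⟨Y, hYs, r, hr, -, -, a3, -⟩ := cross hp h1 h2
    have hY0 : ph x Y = 0 := by
      have h4 := ph_shift x (Y - r • dir x.1) r
      rw [sub_add_cancel, a3] at h4
      exact h4
    have hYf := Pool.Agent.W174.PG.side_facts hp i hYs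
    have hYi : sf p i Y = 0 := hYf.2.1
    have hYr : rf p i Y = Y := hr4 _ _ hYi
    have hY' : ph (fl p i x) Y = 0 := by
      have := ph_fl (p := p) i x Y
      rw [hYr, hY0, neg_zero] at this
      exact this
    have hV' : ph (fl p i x) (uf p w (p k)) = 0 := by
      have := ph_fl (p := p) i x V
      rw [hrV, hV, neg_zero] at this
      exact this
    have hcl : ∀ j, 0 ≤ sf p j Y := fun j => hYf.1 j
    -- the vertex comes after the crossing point
    have hlt : tt (fl p i x) Y < tt (fl p i x) (uf p w (p k)) := by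
      by_cases hn : w = []
      · subst hn
        have e : uf p [] (p k) = p k := rfl
        rw [e] at hV' ⊢
        have q1 : ph (fl p i x) (p i) = - ph x (p i) := by
          have := ph_fl (p := p) i x (p i)
          rwa [hr4 i _ (Pool.Agent.W174.PG.lft_left _ _)] at this
        have q2 : ph (fl p i x) (p (i + 1)) = - ph x (p (i + 1)) := by
          have := ph_fl (p := p) i x (p (i + 1))
          rwa [hr4 i _ (Pool.Agent.W174.PG.lft_right _ _)] at this
        have hki : k ≠ i := by
          rintro rfl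
          rw [q1] at hV'
          linarith
        have hki1 : k ≠ i + 1 := by
          rintro rfl
          rw [q2] at hV'
          linarith
        have h5 := sf_on_line (p := p) i hY' hV'
        rw [hYi, q1, q2] at h5
        have h6 : 0 < sf p i (p k) := hp.pos i k hki hki1
        by_contra hcon
        push Not at hcon
        have : 0 ≤ (tt (fl p i x) (p k) - tt (fl p i x) Y) *
            (-ph x (p (i + 1)) - -ph x (p i)) :=
          mul_nonneg_of_nonpos_of_nonpos (by linarith) (by linarith)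
        linarith
      · exact after hp hn h3 hY' hcl hV'
    have hlt2 : tt x Y < tt x V := by
      have := tt_fl (p := p) i x V Y
      rw [hrV, hYr] at this
      linarith
    have hVi : sf p i V < 0 := by
      have h5 := sf_on_line (p := p) i hY0 hV
      rw [hYi] at h5
      have := mul_pos (sub_pos.2 hlt2) hD
      linarith
    -- the crossing point
    obtain ⟨-, zc⟩ := Pool.Agent.W12.BB.Fan.cr_facts hyi hVi
    have hcY : cr p i y V = Y := by
      have hc0 : ph x (cr p i y V) = 0 := by
        unfold cr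
        set s := sf p i y / (sf p i y - sf p i V)
        have e : y + s • (V - y) = (1 - s) • y + s • V := by
          rw [sub_smul, one_smul, smul_sub]; ring
        rw [e, ph_comb, hy, hV]
        ring
      have h5 := sf_on_line (p := p) i hY0 hc0
      rw [zc, hYi] at h5
      have h6 : (tt x (cr p i y V) - tt x Y) * (ph x (p (i + 1)) - ph x (p i)) = 0 := by linarith
      rcases mul_eq_zero.1 h6 with h7 | h7
      · have h8 := on_line hY0 hc0
        rw [h7, zero_smul, add_zero] at h8
        exact h8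
      · exact absurd h7 hD.ne'
    refine ⟨hyi, hVi, ?_, ?_⟩
    · rw [hcY]
      exact fun j hj => hYf.2.2 j hj
    · rw [hcY, hrV]
      refine ih (fl p i x) Y h3 hY' hcl ?_ hV'
      rintro i' w' rfl
      have hii : i' ≠ i := by
        rintro rfl
        have q1 : ph (fl p i' x) (p i') = - ph x (p i') := by
          have := ph_fl (p := p) i' x (p i')
          rwa [hr4 i' _ (Pool.Agent.W174.PG.lft_left _ _)] at this
        have := h3.1
        rw [q1] at this
        linarith
      exact hYf.2.2 i' hii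

/-- From chains to lines. -/
theorem RW_of_chW (hp : IsConvexPolygon p) (l : Fin (n + 3)) : ∀ (w : List (Fin (n + 3)))
    (B : ℂ) (x : ℝ × ℝ) (r : ℝ), 0 < r → ph x B = 0 →
    (B ∈ reg p ∨ ∃ k, B ∈ side p k ∧ 0 < sf p k (uf p w (p l))) →
    uf p w (p l) = B + r • dir x.1 → ChW p w B (uf p w (p l)) →
    RW p w x ∧ ∃ t : ℝ, 0 < t ∧ p l - t • dir (fw p w x).1 ∈ reg p := by
  obtain ⟨hr1, -, hr3, hr4, hr5, -⟩ := Pool.Agent.W347.BB.ref n p hp
  intro w
  induction w with
  | nil =>
    intro B x r hr hB hbase hA _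
    refine ⟨trivial, ?_⟩
    have hA' : p l = B + r • dir x.1 := hA
    rcases hbase with h | ⟨k, hk, hk2⟩
    · refine ⟨r, hr, ?_⟩
      show p l - r • dir x.1 ∈ reg p
      rw [hA', add_sub_cancel_right]
      exact h
    · refine ⟨r / 2, by linarith, ?_⟩
      show p l - (r / 2) • dir x.1 ∈ reg p
      have e : p l - (r / 2) • dir x.1 = B + (1 / 2 : ℝ) • (p l - B) := by
        rw [hA', add_sub_cancel_left, smul_smul, show (1 / 2 : ℝ) * r = r / 2 by ring,
          add_sub_assoc, ← sub_smul, show r - r / 2 = r / 2 by ring]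
      rw [e]
      intro j
      have h1 := Pool.Agent.W12.BB.Fan.sf_line (p := p) j B (p l) (1 / 2)
      show 0 < sf p j (B + (1 / 2 : ℝ) • (p l - B))
      rw [h1]
      have hf := Pool.Agent.W174.PG.side_facts hp k hk
      have h2 : 0 ≤ sf p j (p l) := Pool.Agent.W174.PG.l_nonneg hp j l
      by_cases hj : j = k
      · subst hj
        have h3 : sf p j B = 0 := hf.2.1
        have h4 : 0 < sf p j (p l) := hk2
        rw [h3]
        linarith
      · have h3 : 0 < sf p j B := hf.2.2 j hj
        linarith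
  | cons i w ih =>
    intro B x r hr hB hbase hA hch
    obtain ⟨h1, h2, h3, h4⟩ := hch
    set A := uf p (i :: w) (p l) with hAdef
    have hrA : rf p i A = uf p w (p l) := by rw [hAdef, uf, hr1]
    set s := sf p i B / (sf p i B - sf p i A) with hs
    have hd : 0 < sf p i B - sf p i A := by linarith
    have hs0 : 0 < s := div_pos h1 hd
    have hs1 : s < 1 := by rw [hs, div_lt_one hd]; linarith
    have hy : cr p i B A = B + (s * r) • dir x.1 := by
      unfold cr
      rw [← hs, hA, add_sub_cancel_left, smul_smul]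
    have hy0 : sf p i (cr p i B A) = 0 := (Pool.Agent.W12.BB.Fan.cr_facts h1 h2).2
    have hyph : ph x (cr p i B A) = 0 := by rw [hy, ph_shift]; exact hB
    have hys : cr p i B A ∈ side p i := side_of_cr hp hy0 h3
    obtain ⟨a, b, ha, hb, hab, hab'⟩ := hys
    have hsl : ph x (p i) < ph x (p (i + 1)) := by
      have := sf_dir (p := p) i x B r
      rw [← hA] at this
      by_contra hcon
      push Not at hcon
      have : 0 ≤ - (r * (ph x (p (i + 1)) - ph x (p i))) := by
        rw [← mul_neg]
        exact mul_nonneg hr.le (by linarith)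
      linarith
    have hcomb : a * ph x (p i) + b * ph x (p (i + 1)) = 0 := by
      have h5 := ph_comb x (p i) (p (i + 1)) b
      rw [show 1 - b = a by linarith, hab', hyph] at h5
      linarith
    have h6 : rf p i (cr p i B A) = cr p i B A := hr4 _ _ hy0
    have hx' : ph (fl p i x) (cr p i B A) = 0 := by
      have := ph_fl (p := p) i x (cr p i B A)
      rw [h6, hyph, neg_zero] at this
      exact this
    have hA2 : uf p w (p l) = cr p i B A + ((1 - s) * r) • dir (fl p i x).1 := by
      have e : A = cr p i B A + ((1 - s) * r) • dir x.1 := by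
        rw [hy]
        conv_lhs => rw [hA]
        rw [add_assoc, ← add_smul]
        congr 2
        ring
      rw [← hrA]
      conv_lhs => rw [e, hr5, h6]
      rfl
    have hpos : 0 < sf p i (uf p w (p l)) := by
      rw [← hrA, hr3]
      linarith
    rw [hrA] at h4
    obtain ⟨g1, g2⟩ := ih (cr p i B A) (fl p i x) ((1 - s) * r) (mul_pos (by linarith) hr) hx'
      (Or.inr ⟨i, ⟨a, b, ha, hb, hab, hab'⟩, hpos⟩) hA2 h4
    refine ⟨⟨?_, ?_, g1⟩, g2⟩
    · by_contra hcon
      push Not at hcon
      have : 0 < b * ph x (p (i + 1)) := mul_pos hb (by linarith)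
      have := mul_nonneg ha.le hcon
      linarith
    · by_contra hcon
      push Not at hcon
      have : a * ph x (p i) < 0 := mul_neg_of_pos_of_neg ha (by linarith)
      have := mul_nonpos_of_nonneg_of_nonpos hb.le hcon
      linarith

theorem visAt_of_chW (hp : IsConvexPolygon p) {y : ℂ} (hy : y ∈ reg p)
    {u : List (Fin (n + 3))} {l : Fin (n + 3)} (h : ChW p u y (uf p u (p l))) :
    ∃ φ : ℝ, VisAt p y u l φ := by
  set U := uf p u (p l) with hU
  have hne : U - y ≠ 0 := by
    intro h0
    have h1 : U = y := sub_eq_zero.1 h0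
    cases u with
    | nil =>
      have h2 : U = p l := rfl
      have h3 : 0 < sf p l (p l) := by
        rw [← h2, h1]
        exact hy l
      unfold sf at h3
      rw [Pool.Agent.W174.PG.lft_left] at h3
      exact lt_irrefl _ h3
    | cons i u =>
      have h2 := h.1
      have h3 := h.2.1
      rw [h1] at h3
      linarith
  have hr : 0 < ‖U - y‖ := norm_pos_iff.2 hne
  have hdir : U = y + ‖U - y‖ • dir (arg (U - y)) := by
    unfold dir
    rw [Complex.real_smul, Complex.norm_mul_exp_arg_mul_I]
    ring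
  obtain ⟨g1, g2⟩ := RW_of_chW hp l u y (ln y (arg (U - y))) ‖U - y‖ hr (ph_ln_self _ _)
    (Or.inl hy) hdir h
  refine ⟨arg (U - y), g1, ?_, ?_, g2⟩
  · rw [← hU]
    have e0 : ∀ a : ℝ, U = y + ‖U - y‖ • dir a → ph (ln y a) U = 0 := by
      intro a ha
      have h5 := ph_shift (ln y a) y ‖U - y‖
      rw [ph_ln_self] at h5
      have h6 : y + ‖U - y‖ • dir (ln y a).1 = U := ha.symm
      rw [h6] at h5
      exact h5
    exact e0 _ hdir
  · unfold rr
    rw [← hU]
    have h9 : U - y = (‖U - y‖ : ℂ) * dir (arg (U - y)) := by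
      unfold dir
      exact (Complex.norm_mul_exp_arg_mul_I _).symm
    have e : ∀ a : ℝ, U - y = (‖U - y‖ : ℂ) * dir a → conj (dir a) * (U - y) = (‖U - y‖ : ℂ) := by
      intro a h9
      calc conj (dir a) * (U - y) = conj (dir a) * ((‖U - y‖ : ℂ) * dir a) := by rw [← h9]
        _ = (‖U - y‖ : ℂ) * (conj (dir a) * dir a) := by ring
        _ = (‖U - y‖ : ℂ) := by rw [conj_dir_mul, mul_one]
    have e := e _ h9
    rw [e, Complex.ofReal_re]
    exact hr

/-- Some unfolded vertex in the triangle is visible from all points of the segment. -/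
theorem tri (hp : IsConvexPolygon p) {B C y0 : ℂ} (hB : B ∈ reg p) (hC : C ∈ reg p)
    (hy0 : y0 ∈ segment ℝ B C) {w : List (Fin (n + 3))} {k : Fin (n + 3)} {θ : ℝ}
    (hv : VisAt p y0 w k θ) : ∃ (u : List (Fin (n + 3))) (l : Fin (n + 3)),
      uf p u (p l) ∈ convexHull ℝ ({uf p w (p k), B, C} : Set ℂ) ∧
      ∀ y ∈ segment ℝ B C, ∃ φ : ℝ, VisAt p y u l φ := by
  have hy0r : y0 ∈ reg p := (reg_cv hp).segment_subset hB hC hy0
  have h1 : ChW p w y0 (uf p w (p k)) :=
    chW_of_RW hp k w (ln y0 θ) y0 hv.1 (ph_ln_self _ _) (fun j => (hy0r j).le)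
      (fun i _ _ => hy0r i) hv.2.1
  obtain ⟨u1, l1, hm1, hs1⟩ := rec_vis hp k w y0 B (Or.inl ⟨hy0r, hB⟩) h1
  have h2 := hs1 B (right_mem_segment ℝ _ _)
  obtain ⟨u, l, hm, hs⟩ := rec_vis hp l1 u1 B C (Or.inl ⟨hB, hC⟩) h2
  have hconv : Convex ℝ (convexHull ℝ ({uf p w (p k), B, C} : Set ℂ)) := convex_convexHull ℝ _
  have mV : uf p w (p k) ∈ convexHull ℝ ({uf p w (p k), B, C} : Set ℂ) :=
    subset_convexHull ℝ _ (by simp)
  have mB : B ∈ convexHull ℝ ({uf p w (p k), B, C} : Set ℂ) := subset_convexHull ℝ _ (by simp)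
  have mC : C ∈ convexHull ℝ ({uf p w (p k), B, C} : Set ℂ) := subset_convexHull ℝ _ (by simp)
  have my0 := hconv.segment_subset mB mC hy0
  have s1 : convexHull ℝ ({uf p w (p k), y0, B} : Set ℂ) ⊆
      convexHull ℝ ({uf p w (p k), B, C} : Set ℂ) := by
    refine convexHull_min ?_ hconv
    intro z hz
    rcases hz with rfl | rfl | rfl
    · exact mV
    · exact my0
    · exact mB
  have s2 : convexHull ℝ ({uf p u1 (p l1), B, C} : Set ℂ) ⊆
      convexHull ℝ ({uf p w (p k), B, C} : Set ℂ) := by
    refine convexHull_min ?_ hconv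
    intro z hz
    rcases hz with rfl | rfl | rfl
    · exact s1 hm1
    · exact mB
    · exact mC
  refine ⟨u, l, s2 hm, fun y hy => ?_⟩
  exact visAt_of_chW hp ((reg_cv hp).segment_subset hB hC hy) (hs y hy)

end Pool.Agent.Zk58.RF
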