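import Mathlib

set_option autoImplicit false

/-!
# Free groups of rank continuum generated by parabolic elements of `SL(2, ℝ)`
-/

namespace Pool.Agent.Zk58.FreeSL2

open FreeGroup (of mk IsReduced isReduced_cons_cons isReduced_toWord mul_mk mk_toWord
  toWord_eq_nil_iff)

/-- The parabolic matrix with fixed point `s`. -/
def gen {R : Type*} [CommRing R] (s : R) : Matrix.SpecialLinearGroup (Fin 2) R :=
  ⟨!![1 + s, -s ^ 2; 1, 1 - s], by rw [Matrix.det_fin_two_of]; ring⟩

/-- The homomorphism from the free group given by a family of parameters. -/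
def phi {ι R : Type*} [CommRing R] (t : ι → R) :
    FreeGroup ι →* Matrix.SpecialLinearGroup (Fin 2) R :=
  FreeGroup.lift (fun x => gen (t x))

theorem phi_of {ι R : Type*} [CommRing R] (t : ι → R) (x : ι) : phi t (of x) = gen (t x) := by
  simp [phi]

theorem map_phi {ι R S : Type*} [CommRing R] [CommRing S] (F : R →+* S) (t : ι → R)
    (g : FreeGroup ι) :
    Matrix.SpecialLinearGroup.map F (phi t g) = phi (fun x => F (t x)) g := by
  have h : (Matrix.SpecialLinearGroup.map F).comp (phi t) = phi (fun x => F (t x)) := by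
    ext x : 1
    simp only [MonoidHom.comp_apply, phi_of]
    ext i j
    rw [Matrix.SpecialLinearGroup.map_apply_coe]
    fin_cases i <;> fin_cases j <;> simp [gen]
  exact DFunLike.congr_fun h g

theorem gen_coe {R : Type*} [CommRing R] (s : R) :
    ((gen s : Matrix.SpecialLinearGroup (Fin 2) R) : Matrix (Fin 2) (Fin 2) R) =
      !![1 + s, -s ^ 2; 1, 1 - s] := rfl

theorem gen_inv_coe {R : Type*} [CommRing R] (s : R) :
    (((gen s)⁻¹ : Matrix.SpecialLinearGroup (Fin 2) R) : Matrix (Fin 2) (Fin 2) R) =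
      !![1 - s, s ^ 2; -1, 1 + s] := by
  rw [Matrix.SpecialLinearGroup.coe_inv, gen_coe, Matrix.adjugate_fin_two_of]
  ext i j
  fin_cases i <;> fin_cases j <;> simp

/-- Powers of the parabolic matrix. -/
theorem gen_zpow {R : Type*} [CommRing R] (s : R) (m : ℤ) :
    ((gen s ^ m : Matrix.SpecialLinearGroup (Fin 2) R) : Matrix (Fin 2) (Fin 2) R) =
      !![1 + m * s, -(m * s ^ 2); (m : R), 1 - m * s] := by
  induction m using Int.induction_on with
  | zero =>
    rw [zpow_zero]
    ext i j
    fin_cases i <;> fin_cases j <;> simp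
  | succ n ih =>
    rw [_root_.zpow_add_one, Matrix.SpecialLinearGroup.coe_mul, ih, gen_coe]
    ext i j
    fin_cases i <;> fin_cases j <;> simp [Matrix.mul_apply, Fin.sum_univ_two] <;> ring
  | pred n ih =>
    rw [_root_.zpow_sub_one, Matrix.SpecialLinearGroup.coe_mul, ih, gen_inv_coe]
    ext i j
    fin_cases i <;> fin_cases j <;>
      simp [Matrix.mul_apply, Fin.sum_univ_two] <;> ring

/-- The zone of a letter, for the entries of the first column. -/
def Zone (s : ℝ) (b : Bool) (a c : ℝ) : Prop :=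
  c ≠ 0 ∧ |a - s * c| ≤ 2 * |c| ∧ (if b then 0 < (a - s * c) * c else (a - s * c) * c < 0)

theorem col_mul (s : ℝ) (b : Bool) (M : Matrix.SpecialLinearGroup (Fin 2) ℝ) :
    ((phi (fun _ : Unit => s) (mk [((), b)]) * M) 0 0 =
      (M 0 0) + (if b then 1 else -1) * s * (M 0 0 - s * M 1 0)) ∧
    ((phi (fun _ : Unit => s) (mk [((), b)]) * M) 1 0 =
      (M 1 0) + (if b then 1 else -1) * (M 0 0 - s * M 1 0)) := by
  cases b
  · have h : (mk [((), false)] : FreeGroup Unit) = (of ())⁻¹ := rfl
    rw [h, _root_.map_inv, phi_of, Matrix.SpecialLinearGroup.coe_mul, gen_inv_coe]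
    constructor <;>
    simp [Matrix.mul_apply, Fin.sum_univ_two] <;> ring
  · have h : (mk [((), true)] : FreeGroup Unit) = of () := rfl
    rw [h, phi_of, Matrix.SpecialLinearGroup.coe_mul, gen_coe]
    constructor <;>
    simp [Matrix.mul_apply, Fin.sum_univ_two] <;> ring

theorem zone_same (s : ℝ) (b : Bool) (a c : ℝ) (h : Zone s b a c) :
    Zone s b (a + (if b then 1 else -1) * s * (a - s * c))
      (c + (if b then 1 else -1) * (a - s * c)) := by
  obtain ⟨h1, h2, h3⟩ := h
  cases b
  · simp only [Bool.false_eq_true, if_false] at h3 ⊢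
    have e1 : a + -1 * s * (a - s * c) - s * (c + -1 * (a - s * c)) = a - s * c := by ring
    refine ⟨?_, ?_, ?_⟩
    · intro h4
      have h5 : a - s * c = c := by linarith
      rw [h5] at h3
      nlinarith [mul_self_pos.2 h1]
    · rw [e1]
      refine h2.trans ?_
      have : |c| ≤ |c + -1 * (a - s * c)| := by
        rw [← sq_le_sq]
        nlinarith [sq_nonneg (a - s * c)]
      linarith
    · rw [if_neg (by simp), e1]
      nlinarith [sq_nonneg (a - s * c)]
  · simp only [if_true] at h3 ⊢
    have e1 : a + 1 * s * (a - s * c) - s * (c + 1 * (a - s * c)) = a - s * c := by ring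
    refine ⟨?_, ?_, ?_⟩
    · intro h4
      have h5 : a - s * c = -c := by linarith
      rw [h5] at h3
      nlinarith [mul_self_pos.2 h1]
    · rw [e1]
      refine h2.trans ?_
      have : |c| ≤ |c + 1 * (a - s * c)| := by
        rw [← sq_le_sq]
        nlinarith [sq_nonneg (a - s * c)]
      linarith
    · rw [if_pos rfl, e1]
      nlinarith [sq_nonneg (a - s * c)]

theorem zone_diff (s s' : ℝ) (b b' : Bool) (a c : ℝ) (h : Zone s b a c) (hs : 4 ≤ |s - s'|) :
    Zone s' b' (a + (if b' then 1 else -1) * s' * (a - s' * c))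
      (c + (if b' then 1 else -1) * (a - s' * c)) := by
  obtain ⟨h1, h2, -⟩ := h
  have hc : 0 < |c| := abs_pos.2 h1
  have h4 : 2 * |c| ≤ |a - s' * c| := by
    have h5 : a - s' * c = (s - s') * c + (a - s * c) := by ring
    have h6 : |(s - s') * c| - |a - s * c| ≤ |(s - s') * c + (a - s * c)| := by
      have := abs_sub_abs_le_abs_sub ((s - s') * c) (-(a - s * c))
      rwa [abs_neg, sub_neg_eq_add] at this
    rw [h5]
    rw [abs_mul] at h6
    nlinarith
  set u := a - s' * c with hu
  have hu0 : 0 < |u| := by linarith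
  have hsq : 4 * c ^ 2 ≤ u ^ 2 := by
    have := mul_self_le_mul_self (by positivity) h4
    nlinarith [sq_abs c, sq_abs u]
  have hsq0 : 0 < c ^ 2 := by positivity
  have hcu : |c * u| ≤ u ^ 2 / 2 := by
    rw [abs_mul]
    nlinarith [sq_abs c, sq_abs u]
  have hcu' := abs_le.1 hcu
  cases b'
  · simp only [Bool.false_eq_true, if_false]
    have e1 : a + -1 * s' * u - s' * (c + -1 * u) = u := by rw [hu]; ring
    refine ⟨?_, ?_, ?_⟩
    · intro h5
      have : c = u := by linarith
      rw [this] at hsq hsq0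
      nlinarith
    · rw [e1]
      have h7 : |u| - |c| ≤ |c + -1 * u| := by
        have := abs_sub_abs_le_abs_sub u c
        have h8 : c + -1 * u = -(u - c) := by ring
        rwa [h8, abs_neg]
      linarith
    · rw [if_neg (by simp), e1]
      nlinarith
  · simp only [if_true]
    have e1 : a + 1 * s' * u - s' * (c + 1 * u) = u := by rw [hu]; ring
    refine ⟨?_, ?_, ?_⟩
    · intro h5
      have : c = -u := by linarith
      rw [this] at hsq hsq0
      nlinarith
    · rw [e1]
      have h7 : |u| - |c| ≤ |c + 1 * u| := by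
        have := abs_sub_abs_le_abs_sub u (-c)
        rw [abs_neg] at this
        have h8 : c + 1 * u = u - -c := by ring
        rwa [h8]
      linarith
    · rw [if_pos rfl, e1]
      nlinarith

theorem phi_letter {ι : Type*} (t : ι → ℝ) (x : ι) (b : Bool) :
    phi t (mk [(x, b)]) = phi (fun _ : Unit => t x) (mk [((), b)]) := by
  cases b
  · have h : (mk [((), false)] : FreeGroup Unit) = (of ())⁻¹ := rfl
    have h' : (mk [(x, false)] : FreeGroup ι) = (of x)⁻¹ := rfl
    rw [h, h', _root_.map_inv, _root_.map_inv, phi_of, phi_of]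
  · have h : (mk [((), true)] : FreeGroup Unit) = of () := rfl
    have h' : (mk [(x, true)] : FreeGroup ι) = of x := rfl
    rw [h, h', phi_of, phi_of]

/-- Ping-pong: the first column of the value of a reduced word. -/
theorem zone_word {ι : Type*} (t : ι → ℝ) (w : List (ι × Bool)) (x : ι) (b : Bool)
    (hred : IsReduced ((x, b) :: w))
    (hs : ∀ y ∈ (x, b) :: w, ∀ y' ∈ (x, b) :: w, y.1 ≠ y'.1 → 4 ≤ |t y.1 - t y'.1|) :
    Zone (t x) b ((phi t (mk ((x, b) :: w))) 0 0) ((phi t (mk ((x, b) :: w))) 1 0) := by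
  induction w generalizing x b with
  | nil =>
    have h := col_mul (t x) b 1
    rw [mul_one] at h
    rw [phi_letter, h.1, h.2]
    cases b <;> simp [Zone]
  | cons a w ih =>
    obtain ⟨y, b'⟩ := a
    have ih' := ih y b' hred.tail (fun p hp p' hp' => hs p (List.mem_cons_of_mem _ hp) p'
      (List.mem_cons_of_mem _ hp'))
    have h1 : mk ((x, b) :: (y, b') :: w) = mk [(x, b)] * mk ((y, b') :: w) := by
      rw [mul_mk]; rfl
    rw [h1, _root_.map_mul, phi_letter]
    have h := col_mul (t x) b (phi t (mk ((y, b') :: w)))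
    rw [h.1, h.2]
    by_cases hxy : x = y
    · subst hxy
      have hbb : b = b' := by
        rw [isReduced_cons_cons] at hred
        exact hred.1 rfl
      subst hbb
      exact zone_same _ _ _ _ ih'
    · apply zone_diff (t y) (t x) b' b _ _ ih'
      have := hs (y, b') (by simp) (x, b) (by simp) (fun h => hxy h.symm)
      exact this

/-- Injectivity for algebraically independent parameters. -/
theorem phi_injective {ι : Type*} (t : ι → ℝ) (ht : AlgebraicIndependent ℚ t) :
    Function.Injective (phi t) := by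
  classical
  rw [injective_iff_map_eq_one]
  intro g hg
  by_contra hne
  have h1 : phi (fun x => (MvPolynomial.X x : MvPolynomial ι ℚ)) g = 1 := by
    have h2 := map_phi (MvPolynomial.aeval t : MvPolynomial ι ℚ →ₐ[ℚ] ℝ).toRingHom
      (fun x => (MvPolynomial.X x : MvPolynomial ι ℚ)) g
    have h3 : (fun x => (MvPolynomial.aeval t : MvPolynomial ι ℚ →ₐ[ℚ] ℝ).toRingHom
        (MvPolynomial.X x : MvPolynomial ι ℚ)) = t := by
      funext x
      simp
    rw [h3, hg] at h2
    apply Matrix.SpecialLinearGroup.ext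
    intro i j
    have h4 := congrArg (fun M : Matrix.SpecialLinearGroup (Fin 2) ℝ => M i j) h2
    have h5 : (MvPolynomial.aeval t : MvPolynomial ι ℚ →ₐ[ℚ] ℝ)
        ((phi (fun x => (MvPolynomial.X x : MvPolynomial ι ℚ)) g) i j) =
        (MvPolynomial.aeval t : MvPolynomial ι ℚ →ₐ[ℚ] ℝ)
        ((1 : Matrix.SpecialLinearGroup (Fin 2) (MvPolynomial ι ℚ)) i j) := by
      have h6 : (1 : Matrix.SpecialLinearGroup (Fin 2) ℝ) i j =
          (MvPolynomial.aeval t : MvPolynomial ι ℚ →ₐ[ℚ] ℝ)
          ((1 : Matrix.SpecialLinearGroup (Fin 2) (MvPolynomial ι ℚ)) i j) := by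
        fin_cases i <;> fin_cases j <;> simp
      rw [← h6]
      exact h4
    exact ht h5
  -- specialise
  let t' : ι → ℝ := fun x => 4 * ((g.toWord.map Prod.fst).idxOf x : ℝ)
  have h2 := map_phi (MvPolynomial.aeval t' : MvPolynomial ι ℚ →ₐ[ℚ] ℝ).toRingHom
      (fun x => (MvPolynomial.X x : MvPolynomial ι ℚ)) g
  have h3 : (fun x => (MvPolynomial.aeval t' : MvPolynomial ι ℚ →ₐ[ℚ] ℝ).toRingHom
      (MvPolynomial.X x : MvPolynomial ι ℚ)) = t' := by
    funext x
    simp
  rw [h3, h1, _root_.map_one] at h2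
  have hw : g.toWord ≠ [] := fun h => hne (toWord_eq_nil_iff.1 h)
  obtain ⟨⟨x, b⟩, w, hxw⟩ := List.exists_cons_of_ne_nil hw
  have hz := zone_word t' w x b (by rw [← hxw]; exact isReduced_toWord) (by
    intro y hy y' hy' hyy
    rw [← hxw] at hy hy'
    have hm : y.1 ∈ g.toWord.map Prod.fst := List.mem_map_of_mem hy
    have hm' : y'.1 ∈ g.toWord.map Prod.fst := List.mem_map_of_mem hy'
    have hne' : (g.toWord.map Prod.fst).idxOf y.1 ≠ (g.toWord.map Prod.fst).idxOf y'.1 := by
      intro h
      exact hyy ((List.idxOf_inj hm).1 h)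
    show 4 ≤ |4 * (((g.toWord.map Prod.fst).idxOf y.1 : ℕ) : ℝ) -
      4 * (((g.toWord.map Prod.fst).idxOf y'.1 : ℕ) : ℝ)|
    rw [← mul_sub, abs_mul]
    have h5 : (1 : ℝ) ≤ |(((g.toWord.map Prod.fst).idxOf y.1 : ℕ) : ℝ) -
        (((g.toWord.map Prod.fst).idxOf y'.1 : ℕ) : ℝ)| := by
      have h6 : (1 : ℤ) ≤ |(((g.toWord.map Prod.fst).idxOf y.1 : ℕ) : ℤ) -
          (((g.toWord.map Prod.fst).idxOf y'.1 : ℕ) : ℤ)| := by
        apply Int.one_le_abs
        omega
      exact_mod_cast h6
    rw [abs_of_pos (by norm_num : (0 : ℝ) < 4)]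
    linarith)
  rw [← hxw, mk_toWord, ← h2] at hz
  exact hz.1 (by simp)

/-- There is an algebraically independent family of reals indexed by any type of cardinality at
most the continuum. -/
theorem exists_algInd (ι : Type) (hι : Cardinal.mk ι ≤ Cardinal.continuum) :
    ∃ t : ι → ℝ, AlgebraicIndependent ℚ t := by
  obtain ⟨s, hs⟩ := exists_isTranscendenceBasis ℚ ℝ
  have hcard : Cardinal.continuum ≤ Cardinal.mk s := by
    by_contra hlt
    push Not at hlt
    have h1 : Cardinal.mk ℝ ≤ max (Cardinal.mk (Algebra.adjoin ℚ (Set.range ((↑) : s → ℝ))))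
        Cardinal.aleph0 := by
      have := hs.isAlgebraic
      exact Algebra.IsAlgebraic.cardinalMk_le_max _ _
    have h2 : Cardinal.mk (Algebra.adjoin ℚ (Set.range ((↑) : s → ℝ))) =
        Cardinal.mk (MvPolynomial s ℚ) :=
      (Cardinal.mk_congr hs.1.aevalEquiv.toEquiv).symm
    have h3 : Cardinal.mk (MvPolynomial s ℚ) ≤ max (max (Cardinal.mk ℚ) (Cardinal.mk s))
        Cardinal.aleph0 := MvPolynomial.cardinalMk_le_max
    rw [h2, Cardinal.mk_real] at h1
    have h4 : max (max (Cardinal.mk ℚ) (Cardinal.mk s)) Cardinal.aleph0 <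
        Cardinal.continuum := by
      refine max_lt (max_lt ?_ hlt) Cardinal.aleph0_lt_continuum
      rw [Cardinal.mkRat]
      exact Cardinal.aleph0_lt_continuum
    exact absurd h1 (not_le.2 (max_lt (h3.trans_lt h4) Cardinal.aleph0_lt_continuum))
  obtain ⟨e⟩ := Cardinal.le_def _ _ |>.1 (hι.trans hcard)
  exact ⟨fun x => (e x : ℝ), hs.1.comp e e.injective⟩

end Pool.Agent.Zk58.FreeSL2
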