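import Mathlib

set_option autoImplicit false

/-!
# Labellings of a set with an action of a free group

Let the free group on `G` act on a set `X`, and let `P x`, `Q x` (`x ∈ G`) be nonempty proper
subsets of a set `I`. We look for a labelling `c : X → I` such that `c q ∈ P x` if and only if
`c (x • q) ∈ Q x`, for all `q` and `x`. Such a labelling exists if all point stabilisers are
commutative and no cyclically reduced word all of whose cyclically consecutive letters match
fixes a point.
-/

namespace Pool.Agent.Zk58.Labelling

open FreeGroup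

/-- The inverse letter. -/
def linv {G : Type*} (a : G × Bool) : G × Bool := (a.1, !a.2)

/-- The set attached to the source of a letter. -/
def src {G I : Type*} (P Q : G → Set I) (a : G × Bool) : Set I := if a.2 then P a.1 else Q a.1

/-- The set attached to the target of a letter. -/
def tgt {G I : Type*} (P Q : G → Set I) (a : G × Bool) : Set I := if a.2 then Q a.1 else P a.1

variable {G : Type*} {I : Type*} {X : Type*}

theorem linv_linv (a : G × Bool) : linv (linv a) = a := by
  rcases a with ⟨x, b⟩
  simp [linv]

theorem src_linv (P Q : G → Set I) (a : G × Bool) : src P Q (linv a) = tgt P Q a := by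
  rcases a with ⟨x, b⟩
  cases b <;> simp [src, tgt, linv]

theorem tgt_linv (P Q : G → Set I) (a : G × Bool) : tgt P Q (linv a) = src P Q a := by
  rcases a with ⟨x, b⟩
  cases b <;> simp [src, tgt, linv]

/-- The constraint of a letter on the labels of its source and of its target. -/
def Rel (P Q : G → Set I) (a : G × Bool) (j j' : I) : Prop := j ∈ src P Q a ↔ j' ∈ tgt P Q a

theorem rel_linv (P Q : G → Set I) (a : G × Bool) (j j' : I) :
    Rel P Q (linv a) j' j ↔ Rel P Q a j j' := by
  unfold Rel
  rw [src_linv, tgt_linv]
  exact Iff.comm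

/-- Two sets are equal or complementary. -/
def NF (S T : Set I) : Prop := S = T ∨ S = Tᶜ

theorem NF.symm {S T : Set I} (h : NF S T) : NF T S := by
  rcases h with h | h
  · exact Or.inl h.symm
  · exact Or.inr (by rw [h, compl_compl])

/-- Two letters do not cancel. -/
def Ok (a b : G × Bool) : Prop := a.1 = b.1 → a.2 = b.2

theorem not_ok {a b : G × Bool} (h : ¬ Ok a b) : a = linv b := by
  unfold Ok at h
  push Not at h
  rcases a with ⟨x, s⟩
  rcases b with ⟨y, t⟩
  simp only at h
  obtain ⟨rfl, h⟩ := h
  simp only [linv, Prod.mk.injEq, true_and]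
  cases s <;> cases t <;> simp_all

theorem ok_symm {a b : G × Bool} (h : Ok a b) : Ok b a := fun h' => (h h'.symm).symm

theorem mk_letter_mul (a : G × Bool) (u : List (G × Bool)) : mk [a] * mk u = mk (a :: u) := by
  rw [mul_mk]; rfl

theorem mk_linv (a : G × Bool) (u : List (G × Bool)) : mk [a] * mk (linv a :: u) = mk u := by
  rw [mk_letter_mul]
  rcases a with ⟨x, b⟩
  apply Quot.sound
  simp only [linv]
  exact Red.Step.cons_not

/-- Labels along a word. -/
def lab (f : G × Bool → I → I) (j0 : I) (u : List (G × Bool)) : I := u.foldr f j0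

theorem exists_f (P Q : G → Set I) (hP : ∀ x, (P x).Nonempty ∧ P x ≠ Set.univ)
    (hQ : ∀ x, (Q x).Nonempty ∧ Q x ≠ Set.univ) :
    ∃ f : G × Bool → I → I, (∀ a j, Rel P Q a j (f a j)) ∧
      ∀ a j j', (j ∈ src P Q a ↔ j' ∈ src P Q a) → f a j = f a j' := by
  classical
  have h1 : ∀ a : G × Bool, ∃ i, i ∈ tgt P Q a := by
    intro a
    unfold tgt
    split
    · exact (hQ _).1
    · exact (hP _).1
  have h2 : ∀ a : G × Bool, ∃ i, i ∉ tgt P Q a := by
    intro a
    unfold tgt
    split
    · exact (Set.ne_univ_iff_exists_notMem _).1 (hQ _).2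
    · exact (Set.ne_univ_iff_exists_notMem _).1 (hP _).2
  choose y hy using h1
  choose n hn using h2
  refine ⟨fun a j => if j ∈ src P Q a then y a else n a, ?_, ?_⟩
  · intro a j
    unfold Rel
    by_cases h : j ∈ src P Q a
    · simp [h, hy a]
    · simp [h, hn a]
  · intro a j j' h
    by_cases h' : j ∈ src P Q a
    · have := h.1 h'
      simp [h', this]
    · have : j' ∉ src P Q a := fun h3 => h' (h.2 h3)
      simp [h', this]

section Orbit

variable [MulAction (FreeGroup G) X]

/-- A labelling of an orbit from a set of representatives. -/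
theorem orbit_labelling (P Q : G → Set I) (z : X) (Good : List (G × Bool) → Prop)
    (lab : List (G × Bool) → I)
    (huniq : ∀ u v, Good u → Good v → mk u • z = mk v • z → u = v)
    (hnil : Good [])
    (hstep : ∀ u, Good u → ∀ a : G × Bool, ∃ u', Good u' ∧ mk u' • z = mk [a] • mk u • z ∧
      Rel P Q a (lab u) (lab u')) :
    ∃ c : X → I, ∀ q ∈ MulAction.orbit (FreeGroup G) z, ∀ x : G,
      (c q ∈ P x ↔ c (of x • q) ∈ Q x) := by
  classical
  have hex : ∀ L : List (G × Bool), ∃ u, Good u ∧ mk u • z = mk L • z := by
    intro L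
    induction L with
    | nil => exact ⟨[], hnil, rfl⟩
    | cons a L ih =>
      obtain ⟨u, hu, hL⟩ := ih
      obtain ⟨u', hu', h1, -⟩ := hstep u hu a
      refine ⟨u', hu', ?_⟩
      rw [h1, hL, ← mul_smul, mul_mk]
      rfl
  let c : X → I := fun q => if h : ∃ u, Good u ∧ mk u • z = q then lab h.choose else lab []
  have hc : ∀ u, Good u → c (mk u • z) = lab u := by
    intro u hu
    have h : ∃ v, Good v ∧ mk v • z = mk u • z := ⟨u, hu, rfl⟩
    have h2 : c (mk u • z) = lab h.choose := dif_pos h
    rw [h2, huniq _ _ h.choose_spec.1 hu h.choose_spec.2]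
  refine ⟨c, ?_⟩
  rintro q ⟨g, rfl⟩ x
  obtain ⟨u, hu, hg⟩ := hex g.toWord
  rw [mk_toWord] at hg
  simp only
  rw [← hg]
  obtain ⟨u', hu', h1, h2⟩ := hstep u hu (x, true)
  have h3 : (of x : FreeGroup G) = mk [(x, true)] := rfl
  rw [h3, ← h1, hc u hu, hc u' hu']
  simpa [Rel, src, tgt] using h2

/-- Labelling of an orbit with trivial stabilisers. -/
theorem free_orbit (P Q : G → Set I) (hP : ∀ x, (P x).Nonempty ∧ P x ≠ Set.univ)
    (hQ : ∀ x, (Q x).Nonempty ∧ Q x ≠ Set.univ) (i0 : I) (z : X)
    (hfree : ∀ g : FreeGroup G, g • z = z → g = 1) :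
    ∃ c : X → I, ∀ q ∈ MulAction.orbit (FreeGroup G) z, ∀ x : G,
      (c q ∈ P x ↔ c (of x • q) ∈ Q x) := by
  classical
  obtain ⟨f, hf, -⟩ := exists_f P Q hP hQ
  refine orbit_labelling P Q z (fun u => IsReduced u) (lab f i0) ?_ IsReduced.nil ?_
  · intro u v hu hv h
    have h1 : (mk v)⁻¹ * mk u = 1 := by
      apply hfree
      rw [mul_smul, h, inv_smul_smul]
    have h2 : mk u = mk v := by
      rw [inv_mul_eq_one] at h1
      exact h1.symm
    have h3 := congrArg toWord h2
    rwa [toWord_mk, toWord_mk, hu.reduce_eq, hv.reduce_eq] at h3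
  · intro u hu a
    by_cases h : ∃ u', u = linv a :: u'
    · obtain ⟨u', rfl⟩ := h
      refine ⟨u', hu.tail, ?_, ?_⟩
      · rw [← mul_smul, mk_linv]
      · rw [← rel_linv]
        exact hf _ _
    · refine ⟨a :: u, ?_, ?_, hf _ _⟩
      · match u, h, hu with
        | [], _, _ => exact IsReduced.singleton
        | b :: u, h, hu =>
          rw [isReduced_cons_cons]
          refine ⟨?_, hu⟩
          by_contra h'
          apply h
          refine ⟨u, ?_⟩
          have h4 : ¬ Ok b a := fun h5 => h' (ok_symm h5)
          rw [← not_ok h4]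
      · rw [← mul_smul, mk_letter_mul]

theorem isReduced_append {u v : List (G × Bool)} :
    IsReduced (u ++ v) ↔ IsReduced u ∧ IsReduced v ∧ ∀ a ∈ u.getLast?, ∀ b ∈ v.head?, Ok a b :=
  List.isChain_append

/-- Peeling off a commuting element. -/
theorem peel [DecidableEq G] (g h : FreeGroup G) (hne : g ≠ 1) (hle : norm g ≤ norm h)
    (hc : g * h = h * g) (hred : IsReduced (h.toWord ++ g.toWord)) :
    ∃ h', h = g * h' ∧ norm h' < norm h := by
  have h1 : (h * g).toWord = h.toWord ++ g.toWord := by
    rw [toWord_mul, hred.reduce_eq]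
  have h2 : g.toWord ++ h.toWord = h.toWord ++ g.toWord := by
    have h3 := toWord_mul_sublist g h
    rw [hc, h1] at h3
    exact (h3.eq_of_length (by simp [add_comm])).symm
  have h4 : g.toWord <+: h.toWord := by
    apply List.prefix_of_prefix_length_le (l₃ := g.toWord ++ h.toWord)
    · exact List.prefix_append _ _
    · rw [h2]
      exact List.prefix_append _ _
    · exact hle
  obtain ⟨t, ht⟩ := h4
  refine ⟨mk t, ?_, ?_⟩
  · rw [← mk_toWord (x := h), ← ht, ← mul_mk, mk_toWord]
  · have h5 : norm (mk t) ≤ t.length := norm_mk_le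
    have h6 : 0 < g.toWord.length := by
      rw [List.length_pos_iff]
      intro h7
      exact hne (toWord_eq_nil_iff.1 h7)
    have h8 : norm h = g.toWord.length + t.length := by
      show h.toWord.length = _
      rw [← ht, List.length_append]
    omega

/-- In a commutative stabiliser a cyclically reduced element of minimal norm is a generator. -/
theorem stab_zpowers [DecidableEq G] (z : X) (g : FreeGroup G) (hg1 : g ≠ 1) (hgz : g • z = z)
    (hmin : ∀ h : FreeGroup G, h ≠ 1 → h • z = z → norm g ≤ norm h)
    (hcyc : IsCyclicallyReduced g.toWord)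
    (hcomm : ∀ h : FreeGroup G, h • z = z → g * h = h * g) :
    ∀ h : FreeGroup G, h • z = z → ∃ m : ℤ, h = g ^ m := by
  have key : ∀ n : ℕ, ∀ h : FreeGroup G, norm h = n → h • z = z → ∃ m : ℤ, h = g ^ m := by
    intro n
    induction n using Nat.strong_induction_on with
    | _ n ih =>
      intro h hn hz
      by_cases h1 : h = 1
      · exact ⟨0, by simp [h1]⟩
      have hle := hmin h h1 hz
      have hc := hcomm h hz
      by_cases hred : IsReduced (h.toWord ++ g.toWord)
      · obtain ⟨h', h2, h3⟩ := peel g h hg1 hle hc hred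
        have h4 : h' • z = z := by
          have h5 : g • h' • z = z := by rw [← mul_smul, ← h2, hz]
          have h6 : g • h' • z = g • z := by rw [h5, hgz]
          exact smul_left_cancel g h6
        obtain ⟨m, hm⟩ := ih (norm h') (by omega) h' rfl h4
        refine ⟨m + 1, ?_⟩
        rw [h2, hm, add_comm, zpow_add, zpow_one]
      · have hred' : IsReduced (h.toWord ++ g⁻¹.toWord) := by
          rw [isReduced_append] at hred ⊢
          refine ⟨isReduced_toWord, isReduced_toWord, ?_⟩
          intro b hb d hd
          by_contra h7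
          apply hred
          refine ⟨isReduced_toWord, isReduced_toWord, ?_⟩
          intro b' hb' a ha
          have hbb : b' = b := by
            rw [Option.mem_def] at hb hb'
            rw [hb] at hb'
            exact (Option.some.inj hb').symm
          subst hbb
          by_contra h8
          have h9 := not_ok h7
          have h10 := not_ok h8
          have h11 : linv d ∈ g.toWord.getLast? := by
            rw [toWord_inv] at hd
            unfold invRev at hd
            rw [List.head?_reverse, List.getLast?_map] at hd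
            rw [Option.mem_def] at hd ⊢
            rw [Option.map_eq_some_iff] at hd
            obtain ⟨e, he, hed⟩ := hd
            rw [he, ← hed]
            rcases e with ⟨x, s⟩
            simp [linv]
          have h12 := hcyc.2 _ h11 _ ha
          rw [← h9, h10] at h12
          simp [linv] at h12
        obtain ⟨h', h2, h3⟩ := peel g⁻¹ h (inv_ne_one.2 hg1) (by rwa [norm_inv_eq])
          (by rw [inv_mul_eq_iff_eq_mul, ← mul_assoc, hc, mul_inv_cancel_right]) hred'
        have hgz' : g⁻¹ • z = z := inv_smul_eq_iff.2 hgz.symm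
        have h4 : h' • z = z := by
          have h5 : g⁻¹ • h' • z = z := by rw [← mul_smul, ← h2, hz]
          have h6 : g⁻¹ • h' • z = g⁻¹ • z := by rw [h5, hgz']
          exact smul_left_cancel g⁻¹ h6
        obtain ⟨m, hm⟩ := ih (norm h') (by omega) h' rfl h4
        refine ⟨-1 + m, ?_⟩
        rw [h2, hm, zpow_add, zpow_neg_one]
  intro h hz
  exact key _ h rfl hz

/-- Labelling of an orbit of a point with a cyclic stabiliser. -/
theorem cyclic_orbit [DecidableEq G] (P Q : G → Set I)
    (hP : ∀ x, (P x).Nonempty ∧ P x ≠ Set.univ)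
    (hQ : ∀ x, (Q x).Nonempty ∧ Q x ≠ Set.univ) (z : X) (g : FreeGroup G)
    (hgz : g • z = z) (hcyc : IsCyclicallyReduced g.toWord)
    (hstab : ∀ h : FreeGroup G, h • z = z → ∃ m : ℤ, h = g ^ m)
    (a1 an : G × Bool) (ha1 : a1 ∈ g.toWord.head?) (han : an ∈ g.toWord.getLast?)
    (hflex : ¬ NF (tgt P Q a1) (src P Q an)) :
    ∃ c : X → I, ∀ q ∈ MulAction.orbit (FreeGroup G) z, ∀ x : G,
      (c q ∈ P x ↔ c (of x • q) ∈ Q x) := by
  obtain ⟨f, hf, hf2⟩ := exists_f P Q hP hQ
  obtain ⟨t, hw⟩ : ∃ t, g.toWord = a1 :: t := by
    rw [Option.mem_def, List.head?_eq_some_iff] at ha1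
    exact ha1
  have hgw : g = mk (a1 :: t) := by rw [← hw, mk_toWord]
  have hsP : ∀ a, (src P Q a).Nonempty ∧ src P Q a ≠ Set.univ := by
    intro a
    unfold src
    split
    · exact hP _
    · exact hQ _
  have htP : ∀ a, (tgt P Q a).Nonempty ∧ tgt P Q a ≠ Set.univ := by
    intro a
    unfold tgt
    split
    · exact hQ _
    · exact hP _
  -- the closing label
  have hclose : ∃ j0, Rel P Q a1 (lab f j0 t) j0 := by
    have hdep : ∀ j j', (j ∈ src P Q an ↔ j' ∈ src P Q an) →
        (lab f j t ∈ src P Q a1 ↔ lab f j' t ∈ src P Q a1) := by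
      intro j j' hjj
      rcases List.eq_nil_or_concat t with rfl | ⟨t', e, rfl⟩
      · rw [hw] at han
        simp only [List.getLast?_singleton, Option.mem_def, Option.some.injEq] at han
        subst han
        simpa [lab] using hjj
      · have : an = e := by
          rw [hw, Option.mem_def] at han
          have h2 : (a1 :: (t'.concat e)) = (a1 :: t') ++ [e] := by simp
          rw [h2, List.getLast?_concat] at han
          exact (Option.some.inj han).symm
        subst this
        simp only [lab, List.concat_eq_append, List.foldr_append, List.foldr_cons,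
          List.foldr_nil]
        rw [hf2 _ _ _ hjj]
    by_contra hno
    push Not at hno
    have hno' : ∀ j, j ∈ tgt P Q a1 ↔ ¬ lab f j t ∈ src P Q a1 := by
      intro j
      have := hno j
      unfold Rel at this
      tauto
    obtain ⟨j1, hj1⟩ := (hsP an).1
    obtain ⟨j2, hj2⟩ := (Set.ne_univ_iff_exists_notMem _).1 (hsP an).2
    have hA : ∀ j, j ∈ src P Q an → (lab f j t ∈ src P Q a1 ↔ lab f j1 t ∈ src P Q a1) :=
      fun j hj => hdep j j1 (by simp [hj, hj1])
    have hB : ∀ j, j ∉ src P Q an → (lab f j t ∈ src P Q a1 ↔ lab f j2 t ∈ src P Q a1) :=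
      fun j hj => hdep j j2 (by simp [hj, hj2])
    by_cases c1 : lab f j1 t ∈ src P Q a1 <;> by_cases c2 : lab f j2 t ∈ src P Q a1
    · obtain ⟨k, hk⟩ := (htP a1).1
      rw [hno'] at hk
      by_cases hks : k ∈ src P Q an
      · exact hk ((hA k hks).2 c1)
      · exact hk ((hB k hks).2 c2)
    · apply hflex
      right
      ext k
      rw [hno', Set.mem_compl_iff]
      by_cases hks : k ∈ src P Q an
      · simp [hks, (hA k hks).2 c1]
      · have := (hB k hks)
        simp [hks, this, c2]
    · apply hflex
      left
      ext k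
      rw [hno']
      by_cases hks : k ∈ src P Q an
      · have := (hA k hks)
        simp [hks, this, c1]
      · have := (hB k hks)
        simp [hks, this, c2]
    · obtain ⟨k, hk⟩ := (Set.ne_univ_iff_exists_notMem _).1 (htP a1).2
      rw [hno', not_not] at hk
      by_cases hks : k ∈ src P Q an
      · exact c1 ((hA k hks).1 hk)
      · exact c2 ((hB k hks).1 hk)
  obtain ⟨j0, hj0⟩ := hclose
  have hwne : g.toWord ≠ [] := by rw [hw]; simp
  have hpow : ∀ (u v : List (G × Bool)) (n : ℕ), n ≠ 0 → IsReduced u →
      IsReduced (v ++ g.toWord) → mk u = mk v * g ^ n → g.toWord <:+ u := by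
    intro u v n hn hu hv huv
    have h1 : IsReduced (v ++ (List.replicate n g.toWord).flatten ++ []) :=
      IsReduced.append_flatten_replicate_append hcyc (by simpa using hv) hn
    rw [List.append_nil] at h1
    have h2 : g ^ n = mk (List.replicate n g.toWord).flatten := by
      conv_lhs => rw [← mk_toWord (x := g)]
      rw [pow_mk]
    rw [h2, mul_mk] at huv
    have h3 := congrArg toWord huv
    rw [toWord_mk, toWord_mk, hu.reduce_eq, h1.reduce_eq] at h3
    rw [h3]
    obtain ⟨k, rfl⟩ := Nat.exists_eq_succ_of_ne_zero hn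
    rw [Nat.succ_eq_add_one, List.replicate_succ', List.flatten_concat, ← List.append_assoc]
    exact List.suffix_append _ _
  have hlast : ∀ b ∈ t.getLast?, Ok b a1 := by
    intro b hb
    apply hcyc.2 b _ a1 ha1
    rw [hw]
    rw [Option.mem_def] at hb ⊢
    rw [List.getLast?_cons, hb]
    rfl
  have hfix : mk g.toWord • z = z := by rw [mk_toWord, hgz]
  refine orbit_labelling P Q z (fun u => IsReduced (u ++ g.toWord) ∧ ¬ g.toWord <:+ u)
    (lab f j0) ?_ ?_ ?_
  · rintro u v ⟨hu, hu'⟩ ⟨hv, hv'⟩ h
    have h1 : ((mk v)⁻¹ * mk u) • z = z := by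
      rw [mul_smul, h, inv_smul_smul]
    obtain ⟨m, hm⟩ := hstab _ h1
    have hur : IsReduced u := (isReduced_append.1 hu).1
    have hvr : IsReduced v := (isReduced_append.1 hv).1
    rcases Int.lt_trichotomy m 0 with hm0 | hm0 | hm0
    · exfalso
      obtain ⟨n, hn⟩ : ∃ n : ℕ, m = -(n : ℤ) := ⟨(-m).toNat, by omega⟩
      apply hv'
      apply hpow v u n (by omega) hvr hu
      have h2 : mk u = mk v * g ^ m := by rw [← hm]; group
      rw [h2, hn, zpow_neg, zpow_natCast]
      group
    · rw [hm0, zpow_zero, inv_mul_eq_one] at hm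
      have h3 := congrArg toWord hm
      rw [toWord_mk, toWord_mk, hur.reduce_eq, hvr.reduce_eq] at h3
      exact h3.symm
    · exfalso
      obtain ⟨n, hn⟩ : ∃ n : ℕ, m = (n : ℤ) := ⟨m.toNat, by omega⟩
      apply hu'
      apply hpow u v n (by omega) hur hv
      have h2 : mk u = mk v * g ^ m := by rw [← hm]; group
      rw [h2, hn, zpow_natCast]
  · refine ⟨isReduced_toWord, ?_⟩
    intro h
    exact hwne (List.suffix_nil.1 h)
  · rintro u ⟨hu, hu'⟩ a
    by_cases h : ∃ u', u = linv a :: u'
    · obtain ⟨u', rfl⟩ := h
      refine ⟨u', ⟨hu.tail, fun h => hu' (h.trans (List.suffix_cons _ _))⟩, ?_, ?_⟩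
      · rw [← mul_smul, mk_linv]
      · rw [← rel_linv]
        exact hf _ _
    · by_cases h2 : IsReduced (a :: u ++ g.toWord)
      · by_cases h3 : g.toWord <:+ a :: u
        · have h4 : g.toWord = a :: u := by
            rcases List.suffix_cons_iff.1 h3 with h4 | h4
            · exact h4
            · exact absurd h4 hu'
          refine ⟨[], ⟨isReduced_toWord, fun h => hwne (List.suffix_nil.1 h)⟩, ?_, ?_⟩
          · rw [← mul_smul, mk_letter_mul, ← h4, hfix]
            exact one_smul _ _
          · rw [hw] at h4
            obtain ⟨rfl, rfl⟩ := List.cons.inj h4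
            exact hj0
        · exact ⟨a :: u, ⟨h2, h3⟩, by rw [← mul_smul, mk_letter_mul], hf _ _⟩
      · -- here `u` is empty and `a` is inverse to the first letter
        have h4 : u = [] ∧ a = linv a1 := by
          match u, h, hu, h2 with
          | [], _, _, h2 =>
            refine ⟨rfl, ?_⟩
            by_contra h5
            apply h2
            rw [isReduced_append]
            refine ⟨IsReduced.singleton, isReduced_toWord, ?_⟩
            intro b hb d hd
            simp only [List.getLast?_singleton, Option.mem_def, Option.some.injEq] at hb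
            subst hb
            rw [hw] at hd
            simp only [List.head?_cons, Option.mem_def, Option.some.injEq] at hd
            subst hd
            by_contra h6
            exact h5 (not_ok h6)
          | b :: u, h, hu, h2 =>
            exfalso
            apply h2
            rw [List.cons_append, List.cons_append, isReduced_cons_cons]
            refine ⟨?_, hu⟩
            by_contra h'
            apply h
            refine ⟨u, ?_⟩
            have h4 : ¬ Ok b a := fun h5 => h' (ok_symm h5)
            rw [← not_ok h4]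
        obtain ⟨rfl, rfl⟩ := h4
        refine ⟨t, ⟨?_, ?_⟩, ?_, ?_⟩
        · rw [isReduced_append]
          refine ⟨?_, isReduced_toWord, ?_⟩
          · have h5 : IsReduced g.toWord := isReduced_toWord
            rw [hw] at h5
            exact h5.tail
          · intro b hb d hd
            rw [hw] at hd
            simp only [List.head?_cons, Option.mem_def, Option.some.injEq] at hd
            subst hd
            exact hlast b hb
        · intro h5
          have h6 := h5.length_le
          rw [hw] at h6
          simp at h6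
        · have h5 : mk ([] : List (G × Bool)) • z = z := one_smul _ _
          rw [h5]
          conv_rhs => rw [← hfix, hw, ← mul_smul]
          have h6 := mk_linv (linv a1) t
          rw [linv_linv] at h6
          rw [h6]
        · show Rel P Q (linv a1) j0 (lab f j0 t)
          rw [rel_linv]
          exact hj0

theorem isCyclicallyReduced_of_rotations {w : List (G × Bool)}
    (h : ∀ w', w' ~r w → IsReduced w') : IsCyclicallyReduced w := by
  refine ⟨h w (List.IsRotated.refl w), ?_⟩
  intro a ha b hb
  match w, h, ha, hb with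
  | [], _, ha, _ => simp at ha
  | c :: s, h, ha, hb =>
    simp only [List.head?_cons, Option.mem_def, Option.some.injEq] at hb
    subst hb
    have h1 : IsReduced (s ++ [c]) := by
      apply h
      have h2 : (c :: s).rotate 1 = s ++ [c] := by simp
      rw [← h2]
      exact (List.IsRotated.forall (c :: s) 1).symm.symm
    rcases List.eq_nil_or_concat s with rfl | ⟨s', e, rfl⟩
    · simp only [List.getLast?_singleton, Option.mem_def, Option.some.injEq] at ha
      subst ha
      exact fun _ => rfl
    · have h2 : (c :: (s'.concat e)) = (c :: s') ++ [e] := by simp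
      rw [h2, Option.mem_def, List.getLast?_concat, Option.some.injEq] at ha
      subst ha
      rw [isReduced_append] at h1
      exact h1.2.2 e (by simp) c (by simp)

/-- The labelling theorem. -/
theorem exists_labelling (P Q : G → Set I)
    (hP : ∀ x, (P x).Nonempty ∧ P x ≠ Set.univ)
    (hQ : ∀ x, (Q x).Nonempty ∧ Q x ≠ Set.univ) (i0 : I)
    (hcomm : ∀ (z : X) (g h : FreeGroup G), g • z = z → h • z = z → g * h = h * g)
    (hloop : ∀ (z : X) (w : List (G × Bool)), w ≠ [] → (∀ w', w' ~r w → IsReduced w') →
      (∀ w', w' ~r w → ∀ a ∈ w'.head?, ∀ b ∈ w'.getLast?, NF (tgt P Q a) (src P Q b)) →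
      mk w • z ≠ z) :
    ∃ c : X → I, ∀ (q : X) (x : G), (c q ∈ P x ↔ c (of x • q) ∈ Q x) := by
  classical
  have horb : ∀ z : X, ∃ c : X → I, ∀ q ∈ MulAction.orbit (FreeGroup G) z, ∀ x : G,
      (c q ∈ P x ↔ c (of x • q) ∈ Q x) := by
    intro z
    by_cases hfree : ∀ z' ∈ MulAction.orbit (FreeGroup G) z, ∀ g : FreeGroup G,
        g • z' = z' → g = 1
    · exact free_orbit P Q hP hQ i0 z (hfree z (MulAction.mem_orbit_self z))
    · push Not at hfree
      obtain ⟨z0, hz0, g0, hg0, hg01⟩ := hfree
      have hexn : ∃ n : ℕ, ∃ z' ∈ MulAction.orbit (FreeGroup G) z, ∃ g : FreeGroup G,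
          g ≠ 1 ∧ g • z' = z' ∧ norm g = n := ⟨_, z0, hz0, g0, hg01, hg0, rfl⟩
      obtain ⟨z1, hz1, g, hg1, hgz, hgn⟩ := Nat.find_spec hexn
      have hmin : ∀ z' ∈ MulAction.orbit (FreeGroup G) z, ∀ h : FreeGroup G, h ≠ 1 →
          h • z' = z' → norm g ≤ norm h := by
        intro z' hz' h hh1 hh
        rw [hgn]
        exact Nat.find_min' hexn ⟨z', hz', h, hh1, hh, rfl⟩
      have hrot : ∀ w', w' ~r g.toWord → IsReduced w' ∧
          ∃ z' ∈ MulAction.orbit (FreeGroup G) z, mk w' • z' = z' ∧ mk w' ≠ 1 := by
        intro w' hw'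
        obtain ⟨n, hn⟩ := hw'.symm
        rw [List.rotate_eq_drop_append_take_mod] at hn
        set u := g.toWord.take (n % g.toWord.length) with hu
        set v := g.toWord.drop (n % g.toWord.length) with hv
        have huv : g = mk u * mk v := by
          rw [mul_mk, hu, hv, List.take_append_drop, mk_toWord]
        have hg' : mk w' = (mk u)⁻¹ * g * mk u := by
          rw [← hn, ← mul_mk, huv]
          group
        have hz' : (mk u)⁻¹ • z1 ∈ MulAction.orbit (FreeGroup G) z := by
          rw [← MulAction.orbit_eq_iff.2 hz1]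
          exact MulAction.mem_orbit _ _
        have hfix : mk w' • (mk u)⁻¹ • z1 = (mk u)⁻¹ • z1 := by
          rw [hg', mul_smul, mul_smul, smul_inv_smul, hgz]
        have hne : mk w' ≠ 1 := by
          rw [hg']
          intro h
          apply hg1
          have h2 : (mk u) * ((mk u)⁻¹ * g * mk u) * (mk u)⁻¹ = g := by group
          rw [← h2, h]
          group
        refine ⟨?_, _, hz', hfix, hne⟩
        have h3 := hmin _ hz' _ hne hfix
        have h4 : w'.length = norm g := by
          rw [hw'.perm.length_eq]
          rfl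
        rw [← h4] at h3
        have h5 : reduce w' = w' := by
          have h6 : (reduce w').Sublist w' := (Red.sublist reduce.red)
          apply h6.eq_of_length
          apply le_antisymm h6.length_le
          have h7 : norm (mk w') = (reduce w').length := rfl
          rw [← h7]
          exact h3
        exact IsReduced.of_reduce_eq h5
      have hwne : g.toWord ≠ [] := fun h => hg1 (toWord_eq_nil_iff.1 h)
      have hex : ∃ w', w' ~r g.toWord ∧ ∃ a ∈ w'.head?, ∃ b ∈ w'.getLast?,
          ¬ NF (tgt P Q a) (src P Q b) := by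
        by_contra hno
        push Not at hno
        refine hloop z1 g.toWord hwne (fun w' hw' => (hrot w' hw').1) ?_ ?_
        · intro w' hw' a ha b hb
          exact hno w' hw' a ha b hb
        · rw [mk_toWord, hgz]
      obtain ⟨w', hw', a, ha, b, hb, hab⟩ := hex
      obtain ⟨hred, z2, hz2, hfix, hne⟩ := hrot w' hw'
      have hword : (mk w').toWord = w' := by rw [toWord_mk, hred.reduce_eq]
      have hcyc : IsCyclicallyReduced (mk w').toWord := by
        rw [hword]
        exact isCyclicallyReduced_of_rotations (fun w'' h => (hrot w'' (h.trans hw')).1)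
      have hmin2 : ∀ h : FreeGroup G, h ≠ 1 → h • z2 = z2 → norm (mk w') ≤ norm h := by
        intro h hh1 hh
        have h1 := hmin z2 hz2 h hh1 hh
        have h2 : norm (mk w') ≤ w'.length := norm_mk_le
        have h3 : w'.length = norm g := by
          rw [hw'.perm.length_eq]
          rfl
        omega
      have hst := stab_zpowers z2 (mk w') hne hfix hmin2 hcyc
        (fun h hh => hcomm z2 _ _ hfix hh)
      obtain ⟨c, hc⟩ := cyclic_orbit P Q hP hQ z2 (mk w') hfix hcyc hst a b
        (by rwa [hword]) (by rwa [hword]) hab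
      refine ⟨c, ?_⟩
      rw [← MulAction.orbit_eq_iff.2 hz2]
      exact hc
  choose C hC using horb
  let rep : X → X := fun q => Quotient.out (Quotient.mk (MulAction.orbitRel (FreeGroup G) X) q)
  have hrep : ∀ q, q ∈ MulAction.orbit (FreeGroup G) (rep q) := by
    intro q
    have h1 : Quotient.mk (MulAction.orbitRel (FreeGroup G) X) (rep q) =
        Quotient.mk (MulAction.orbitRel (FreeGroup G) X) q := Quotient.out_eq _
    have h2 : rep q ∈ MulAction.orbit (FreeGroup G) q :=
      MulAction.orbitRel_apply.1 (Quotient.exact h1)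
    exact MulAction.mem_orbit_symm.1 h2
  have hrep2 : ∀ q (g : FreeGroup G), rep (g • q) = rep q := by
    intro q g
    have h1 : Quotient.mk (MulAction.orbitRel (FreeGroup G) X) (g • q) =
        Quotient.mk (MulAction.orbitRel (FreeGroup G) X) q := by
      apply Quotient.sound
      exact MulAction.orbitRel_apply.2 (MulAction.mem_orbit _ _)
    show Quotient.out _ = Quotient.out _
    rw [h1]
  refine ⟨fun q => C (rep q) q, ?_⟩
  intro q x
  simp only
  rw [hrep2]
  exact hC (rep q) q (hrep q) x

end Orbit

end Pool.Agent.Zk58.Labelling
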