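import Pool.Agent.Zk58.Labelling
import Pool.Agent.Zk58.FreeSL2

set_option autoImplicit false

/-!
# Star-shaped systems of congruences in the hyperbolic plane
-/

namespace Pool.Agent.Zk58.Star

open Pool.Agent.Zk58.Labelling Pool.Agent.Zk58.FreeSL2
open FreeGroup (of mk IsReduced isReduced_cons_cons isReduced_toWord mul_mk mk_toWord
  toWord_eq_nil_iff IsCyclicallyReduced)

/-- The entries of a real unimodular matrix that fixes a point of the upper half-plane. -/
theorem entries_of_fixed (M : Matrix.SpecialLinearGroup (Fin 2) ℝ) (z : UpperHalfPlane)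
    (h : M • z = z) :
    M 1 1 = M 0 0 - 2 * z.re * M 1 0 ∧ M 0 1 = -(z.re ^ 2 + z.im ^ 2) * M 1 0 := by
  have h1 : ((M • z : UpperHalfPlane) : ℂ) = (z : ℂ) := by rw [h]
  rw [UpperHalfPlane.coe_specialLinearGroup_apply] at h1
  have hy : z.im ≠ 0 := z.im_pos.ne'
  have hden : ((algebraMap ℝ ℝ (M 1 0) : ℝ) : ℂ) * (z : ℂ) + ((algebraMap ℝ ℝ (M 1 1) : ℝ) : ℂ) ≠ 0 := by
    intro h2
    have h3 := congrArg Complex.im h2
    have h4 := congrArg Complex.re h2
    simp at h3 h4
    rcases h3 with h3 | h3
    · have h5 : M 1 1 = 0 := by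
        rw [h3] at h4
        simpa using h4
      have h6 := M.det_coe
      rw [Matrix.det_fin_two, h3, h5] at h6
      simp at h6
    · exact hy h3
  rw [div_eq_iff hden] at h1
  have hre := congrArg Complex.re h1
  have him := congrArg Complex.im h1
  simp at hre him
  have e1 : M 1 1 = M 0 0 - 2 * z.re * M 1 0 := by
    have : z.im * (M 1 1 - (M 0 0 - 2 * z.re * M 1 0)) = 0 := by linarith
    rcases mul_eq_zero.1 this with h | h
    · exact absurd h hy
    · linarith
  refine ⟨e1, ?_⟩
  rw [e1] at hre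
  linarith

theorem comm_of_fixed (M N : Matrix.SpecialLinearGroup (Fin 2) ℝ) (z : UpperHalfPlane)
    (hM : M • z = z) (hN : N • z = z) : M * N = N * M := by
  obtain ⟨a1, a2⟩ := entries_of_fixed M z hM
  obtain ⟨b1, b2⟩ := entries_of_fixed N z hN
  apply Matrix.SpecialLinearGroup.ext
  intro i j
  rw [Matrix.SpecialLinearGroup.coe_mul, Matrix.SpecialLinearGroup.coe_mul, Matrix.mul_apply,
    Matrix.mul_apply, Fin.sum_univ_two, Fin.sum_univ_two]
  fin_cases i <;> fin_cases j <;>
    simp only [Fin.zero_eta, Fin.mk_one, Fin.isValue, a1, a2, b1, b2] <;> ring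

theorem gen_zpow_not_fixed (s : ℝ) (m : ℤ) (hm : m ≠ 0) (z : UpperHalfPlane) :
    gen s ^ m • z ≠ z := by
  intro h
  obtain ⟨h1, h2⟩ := entries_of_fixed _ z h
  rw [gen_zpow] at h1 h2
  simp at h1 h2
  have hm' : (m : ℝ) ≠ 0 := by exact_mod_cast hm
  have hy := z.im_pos
  have h3 : z.re = s := by
    have : (m : ℝ) * (z.re - s) = 0 := by linarith
    rcases mul_eq_zero.1 this with h | h
    · exact absurd h hm'
    · linarith
  rw [h3] at h2
  have h4 : (m : ℝ) * z.im ^ 2 = 0 := by linarith
  rcases mul_eq_zero.1 h4 with h | h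
  · exact hm' h
  · nlinarith

/-- A nonempty cyclic word all of whose cyclically adjacent letters are equal is a power. -/
theorem replicate_of_rotations {α : Type*} {w : List α}
    (h : ∀ w', w' ~r w → ∀ b ∈ w'.head?, ∀ a ∈ w'.getLast?, a = b) :
    ∀ a ∈ w.head?, w = List.replicate w.length a := by
  have key : ∀ v u : List α, w = u ++ v → v.IsChain (· = ·) := by
    intro v
    induction v with
    | nil => intro _ _; exact List.isChain_nil
    | cons x v ih =>
      intro u hu
      match v, ih, hu with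
      | [], _, _ => exact List.isChain_singleton x
      | y :: v, ih, hu =>
        rw [List.isChain_cons_cons]
        refine ⟨?_, ih (u ++ [x]) (by rw [hu]; simp)⟩
        have h1 : ((y :: v) ++ (u ++ [x])) ~r w := by
          rw [hu]
          have h2 : u ++ x :: y :: v = (u ++ [x]) ++ (y :: v) := by simp
          rw [h2]
          exact List.isRotated_append
        apply h _ h1 y (by simp) x
        rw [← List.append_assoc, Option.mem_def, List.getLast?_concat]
  exact List.isChain_eq_iff_eq_replicate.1 (key w [] rfl)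

section System

variable {I H K : Type} (B Y : H → Set I) (X : K → Set I)

/-- The source sets of a star-shaped system. -/
def PP : H ⊕ K → Set I := Sum.elim B X

/-- The target sets of a star-shaped system. -/
def QQ : H ⊕ K → Set I := Sum.elim Y (fun k => (X k)ᶜ)

theorem nf_eq {i0 : I} {S T : Set I} (hS : i0 ∈ S) (hT : i0 ∈ T) (h : NF S T) : S = T := by
  rcases h with h | h
  · exact h
  · rw [h] at hS
    exact absurd hT hS

theorem nf_compl {S T : Set I} (h : NF Sᶜ T) : NF S T := by
  rcases h with h | h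
  · right
    rw [← h, compl_compl]
  · left
    exact compl_injective h

theorem nf_compl' {S T : Set I} (h : NF S Tᶜ) : NF S T := (nf_compl h.symm).symm

/-- In a star-shaped system the matching cyclic words are powers of one loop letter. -/
theorem loop_word (i0 : I) (hB : ∀ h, i0 ∈ B h) (hY : ∀ h, i0 ∈ Y h) (hX : ∀ k, i0 ∈ X k)
    (hYinj : Function.Injective Y) (hXinj : Function.Injective X)
    (hYB : ∀ h h', Y h ≠ B h') (hYX : ∀ h k, Y h ≠ X k)
    (w : List ((H ⊕ K) × Bool)) (hw : w ≠ []) (hred : ∀ w', w' ~r w → IsReduced w')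
    (hnf : ∀ w', w' ~r w → ∀ a ∈ w'.head?, ∀ b ∈ w'.getLast?,
      NF (tgt (PP B X) (QQ Y X) a) (src (PP B X) (QQ Y X) b)) :
    ∃ (k : K) (s : Bool), w = List.replicate w.length (Sum.inr k, s) := by
  -- adjacent letters
  have hok : ∀ w', w' ~r w → ∀ b ∈ w'.head?, ∀ a ∈ w'.getLast?, Ok a b := by
    intro w' hw' b hb a ha
    have h1 : IsCyclicallyReduced w' :=
      isCyclicallyReduced_of_rotations (fun w'' h => hred w'' (h.trans hw'))
    exact h1.2 a ha b hb
  -- if the source of the last letter is `Y h` then the first letter is its inverse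
  have hA : ∀ w', w' ~r w → ∀ b ∈ w'.head?, ∀ a ∈ w'.getLast?, ∀ h : H,
      a = (Sum.inl h, false) → False := by
    intro w' hw' b hb a ha h hah
    have h1 := hnf w' hw' b hb a ha
    have h2 := hok w' hw' b hb a ha
    subst hah
    have e1 : src (PP B X) (QQ Y X) (Sum.inl h, false) = Y h := rfl
    rw [e1] at h1
    rcases b with ⟨b | b, s⟩ <;> cases s
    · have e2 : tgt (PP B X) (QQ Y X) (Sum.inl b, false) = B b := rfl
      rw [e2] at h1
      exact hYB h b (nf_eq (hB b) (hY h) h1).symm
    · have e2 : tgt (PP B X) (QQ Y X) (Sum.inl b, true) = Y b := rfl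
      rw [e2] at h1
      have h3 := hYinj (nf_eq (hY b) (hY h) h1)
      subst h3
      have := h2 rfl
      simp at this
    · have e2 : tgt (PP B X) (QQ Y X) (Sum.inr b, false) = X b := rfl
      rw [e2] at h1
      exact hYX h b (nf_eq (hX b) (hY h) h1).symm
    · have e2 : tgt (PP B X) (QQ Y X) (Sum.inr b, true) = (X b)ᶜ := rfl
      rw [e2] at h1
      exact hYX h b (nf_eq (hX b) (hY h) (nf_compl h1)).symm
  have hA' : ∀ w', w' ~r w → ∀ b ∈ w'.head?, ∀ a ∈ w'.getLast?, ∀ h : H,
      b = (Sum.inl h, true) → False := by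
    intro w' hw' b hb a ha h hbh
    have h1 := hnf w' hw' b hb a ha
    have h2 := hok w' hw' b hb a ha
    subst hbh
    have e1 : tgt (PP B X) (QQ Y X) (Sum.inl h, true) = Y h := rfl
    rw [e1] at h1
    rcases a with ⟨a | a, s⟩ <;> cases s
    · have e2 : src (PP B X) (QQ Y X) (Sum.inl a, false) = Y a := rfl
      rw [e2] at h1
      have h3 := hYinj (nf_eq (hY h) (hY a) h1)
      subst h3
      have := h2 rfl
      simp at this
    · have e2 : src (PP B X) (QQ Y X) (Sum.inl a, true) = B a := rfl
      rw [e2] at h1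
      exact hYB h a (nf_eq (hY h) (hB a) h1)
    · have e2 : src (PP B X) (QQ Y X) (Sum.inr a, false) = (X a)ᶜ := rfl
      rw [e2] at h1
      exact hYX h a (nf_eq (hY h) (hX a) (nf_compl' h1))
    · have e2 : src (PP B X) (QQ Y X) (Sum.inr a, true) = X a := rfl
      rw [e2] at h1
      exact hYX h a (nf_eq (hY h) (hX a) h1)
  -- every letter is a loop letter
  have hlast : ∀ w', w' ~r w → ∀ a ∈ w'.getLast?, ∃ (k : K) (s : Bool), a = (Sum.inr k, s) := by
    intro w' hw' a ha
    rcases List.eq_nil_or_concat w' with rfl | ⟨u, a', rfl⟩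
    · simp at ha
    · rw [List.concat_eq_append, Option.mem_def, List.getLast?_concat, Option.some.injEq] at ha
      subst ha
      rw [List.concat_eq_append] at hw'
      rcases a' with ⟨h | k, s⟩
      · exfalso
        cases s
        · obtain ⟨b, hb⟩ : ∃ b, b ∈ (u ++ [((Sum.inl h : H ⊕ K), false)]).head? := by
            cases u <;> simp
          exact hA _ hw' b hb (Sum.inl h, false) (by simp) h rfl
        · have hw'' : ([((Sum.inl h : H ⊕ K), true)] ++ u) ~r w :=
            List.isRotated_append.trans hw'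
          obtain ⟨b, hb⟩ : ∃ b, b ∈ ([((Sum.inl h : H ⊕ K), true)] ++ u).getLast? := by
            rcases List.eq_nil_or_concat u with rfl | ⟨u', c, rfl⟩
            · exact ⟨(Sum.inl h, true), by simp⟩
            · refine ⟨c, ?_⟩
              rw [List.concat_eq_append, ← List.append_assoc, Option.mem_def,
                List.getLast?_concat]
          exact hA' _ hw'' (Sum.inl h, true) (by simp) b hb h rfl
      · exact ⟨k, s, rfl⟩
  have hhead : ∀ w', w' ~r w → ∀ b ∈ w'.head?, ∃ (k : K) (s : Bool), b = (Sum.inr k, s) := by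
    intro w' hw' b hb
    match w', hw', hb with
    | [], _, hb => simp at hb
    | c :: u, hw', hb =>
      simp only [List.head?_cons, Option.mem_def, Option.some.injEq] at hb
      subst hb
      have hw'' : (u ++ [c]) ~r w := by
        have : (u ++ [c]) ~r ([c] ++ u) := List.isRotated_append
        exact this.trans hw'
      exact hlast _ hw'' c (by simp)
  have hrep := replicate_of_rotations (w := w) (by
    intro w' hw' b hb a ha
    obtain ⟨k, s, rfl⟩ := hlast w' hw' a ha
    obtain ⟨k', s', rfl⟩ := hhead w' hw' b hb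
    have h1 := hnf w' hw' _ hb _ ha
    have h2 := hok w' hw' _ hb _ ha
    have h3 : NF (X k') (X k) := by
      cases s <;> cases s'
      · exact nf_compl' h1
      · exact nf_compl (nf_compl' h1)
      · exact h1
      · exact nf_compl h1
    have h4 := hXinj (nf_eq (hX k') (hX k) h3)
    subst h4
    have h5 := h2 rfl
    simp only at h5
    rw [h5])
  obtain ⟨a, t, rfl⟩ := List.exists_cons_of_ne_nil hw
  obtain ⟨k, s, rfl⟩ := hhead _ (List.IsRotated.refl _) a (by simp)
  exact ⟨k, s, hrep _ (by simp)⟩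

/-- Star-shaped systems of at most continuum many congruences are solvable. -/
theorem star_solvable (hcard : Cardinal.mk (H ⊕ K) ≤ Cardinal.continuum)
    (i0 : I) (hB : ∀ h, i0 ∈ B h) (hY : ∀ h, i0 ∈ Y h) (hX : ∀ k, i0 ∈ X k)
    (hB' : ∀ h, B h ≠ Set.univ) (hY' : ∀ h, Y h ≠ Set.univ) (hX' : ∀ k, X k ≠ Set.univ)
    (hYinj : Function.Injective Y) (hXinj : Function.Injective X)
    (hYB : ∀ h h', Y h ≠ B h') (hYX : ∀ h k, Y h ≠ X k) :
    ∃ c : UpperHalfPlane → I,
      (∀ h, ∃ g : Matrix.SpecialLinearGroup (Fin 2) ℝ, ∀ z, (c z ∈ B h ↔ c (g • z) ∈ Y h)) ∧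
      (∀ k, ∃ g : Matrix.SpecialLinearGroup (Fin 2) ℝ, ∀ z, (c z ∈ X k ↔ c (g • z) ∉ X k)) := by
  obtain ⟨t, ht⟩ := exists_algInd (H ⊕ K) hcard
  have hinj := phi_injective t ht
  let act : MulAction (FreeGroup (H ⊕ K)) UpperHalfPlane :=
    MulAction.compHom UpperHalfPlane (phi t)
  have hact : ∀ (g : FreeGroup (H ⊕ K)) (z : UpperHalfPlane), g • z = phi t g • z :=
    fun g z => rfl
  obtain ⟨c, hc⟩ := exists_labelling (X := UpperHalfPlane) (PP B X) (QQ Y X)
    (by
      rintro (h | k)
      · exact ⟨⟨i0, hB h⟩, hB' h⟩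
      · exact ⟨⟨i0, hX k⟩, hX' k⟩)
    (by
      rintro (h | k)
      · exact ⟨⟨i0, hY h⟩, hY' h⟩
      · refine ⟨?_, ?_⟩
        · exact Set.nonempty_compl.2 (hX' k)
        · intro h
          have : i0 ∈ (X k)ᶜ := by
            have h1 : QQ Y X (Sum.inr k) = (X k)ᶜ := rfl
            rw [← h1, h]
            trivial
          exact this (hX k))
    i0
    (by
      intro z g h hg hh
      apply hinj
      rw [map_mul, map_mul]
      rw [hact] at hg hh
      exact comm_of_fixed _ _ z hg hh)
    (by
      intro z w hw hred hnf hfix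
      obtain ⟨k, s, hrep⟩ := loop_word B Y X i0 hB hY hX hYinj hXinj hYB hYX w hw hred hnf
      have hlen : w.length ≠ 0 := fun h => hw (List.length_eq_zero_iff.1 h)
      have h1 : mk w = (mk [((Sum.inr k : H ⊕ K), s)]) ^ w.length := by
        rw [FreeGroup.pow_mk, List.flatten_replicate_singleton, ← hrep]
      rw [hact, h1, map_pow] at hfix
      cases s
      · have h2 : (mk [((Sum.inr k : H ⊕ K), false)]) = (of (Sum.inr k))⁻¹ := rfl
        rw [h2, _root_.map_inv, phi_of, inv_pow, ← zpow_natCast, ← zpow_neg] at hfix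
        exact gen_zpow_not_fixed _ _ (by simpa using hw) z hfix
      · have h2 : (mk [((Sum.inr k : H ⊕ K), true)]) = of (Sum.inr k) := rfl
        rw [h2, phi_of, ← zpow_natCast] at hfix
        exact gen_zpow_not_fixed _ _ (by simpa using hw) z hfix)
  refine ⟨c, ?_, ?_⟩
  · intro h
    exact ⟨phi t (of (Sum.inl h)), fun z => hc z (Sum.inl h)⟩
  · intro k
    exact ⟨phi t (of (Sum.inr k)), fun z => hc z (Sum.inr k)⟩

end System

end Pool.Agent.Zk58.Star
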